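import Mathlib

/-! `fun_prop` set-up for primitive recursive and computable functions. -/

namespace Pool.Agent.MP_c1eef4_lc.H62

open Encodable Denumerable

attribute [fun_prop] Primrec
attribute [fun_prop] Computable

section Prim
variable {α β γ σ : Type} [Primcodable α] [Primcodable β] [Primcodable γ] [Primcodable σ]

@[fun_prop] theorem P.id : Primrec (fun x : α => x) := Primrec.id
@[fun_prop] theorem P.const (c : β) : Primrec (fun _ : α => c) := Primrec.const c
@[fun_prop] theorem P.comp {f : β → σ} {g : α → β} (hf : Primrec f) (hg : Primrec g) :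
    Primrec fun a => f (g a) := hf.comp hg
@[fun_prop] theorem P.pair {f : α → β} {g : α → γ} (hf : Primrec f) (hg : Primrec g) :
    Primrec fun a => (f a, g a) := hf.pair hg
@[fun_prop] theorem P.fst {f : α → β × γ} (hf : Primrec f) : Primrec fun a => (f a).1 :=
  Primrec.fst.comp hf
@[fun_prop] theorem P.snd {f : α → β × γ} (hf : Primrec f) : Primrec fun a => (f a).2 :=
  Primrec.snd.comp hf
@[fun_prop] theorem P.add {f g : α → ℕ} (hf : Primrec f) (hg : Primrec g) :
    Primrec fun a => f a + g a := Primrec.nat_add.comp hf hg
@[fun_prop] theorem P.sub {f g : α → ℕ} (hf : Primrec f) (hg : Primrec g) :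
    Primrec fun a => f a - g a := Primrec.nat_sub.comp hf hg
@[fun_prop] theorem P.mul {f g : α → ℕ} (hf : Primrec f) (hg : Primrec g) :
    Primrec fun a => f a * g a := Primrec.nat_mul.comp hf hg
@[fun_prop] theorem P.pow {f g : α → ℕ} (hf : Primrec f) (hg : Primrec g) :
    Primrec fun a => f a ^ g a :=
  (Primrec₂.unpaired'.1 Nat.Primrec.pow).comp hf hg
@[fun_prop] theorem P.max {f g : α → ℕ} (hf : Primrec f) (hg : Primrec g) :
    Primrec fun a => max (f a) (g a) := Primrec.nat_max.comp hf hg
@[fun_prop] theorem P.natPair {f g : α → ℕ} (hf : Primrec f) (hg : Primrec g) :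
    Primrec fun a => Nat.pair (f a) (g a) := Primrec₂.natPair.comp hf hg
@[fun_prop] theorem P.unpair {f : α → ℕ} (hf : Primrec f) :
    Primrec fun a => Nat.unpair (f a) := Primrec.unpair.comp hf
@[fun_prop] theorem P.encode {f : α → β} (hf : Primrec f) :
    Primrec fun a => encode (f a) := Primrec.encode.comp hf
@[fun_prop] theorem P.ofNat {δ : Type} [Denumerable δ] {f : α → ℕ} (hf : Primrec f) :
    Primrec fun a => ofNat δ (f a) := (Primrec.ofNat δ).comp hf
@[fun_prop] theorem P.some {f : α → β} (hf : Primrec f) :
    Primrec fun a => some (f a) := Primrec.option_some.comp hf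
@[fun_prop] theorem P.isSome {f : α → Option β} (hf : Primrec f) :
    Primrec fun a => (f a).isSome := Primrec.option_isSome.comp hf
@[fun_prop] theorem P.and {f g : α → Bool} (hf : Primrec f) (hg : Primrec g) :
    Primrec fun a => (f a && g a) := Primrec.and.comp hf hg
@[fun_prop] theorem P.or {f g : α → Bool} (hf : Primrec f) (hg : Primrec g) :
    Primrec fun a => (f a || g a) := Primrec.or.comp hf hg
@[fun_prop] theorem P.not {f : α → Bool} (hf : Primrec f) :
    Primrec fun a => (!f a) := Primrec.not.comp hf
@[fun_prop] theorem P.cond {c : α → Bool} {f g : α → σ} (hc : Primrec c) (hf : Primrec f)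
    (hg : Primrec g) : Primrec fun a => bif c a then f a else g a := Primrec.cond hc hf hg
@[fun_prop] theorem P.beq [BEq β] [LawfulBEq β] {f g : α → β} (hf : Primrec f) (hg : Primrec g) :
    Primrec fun a => (f a == g a) := by
  classical
  exact ((Primrec.eq.comp hf hg).decide).of_eq fun a => by
    by_cases h : f a = g a <;> simp [h]
@[fun_prop] theorem P.decLe {f g : α → ℕ} (hf : Primrec f) (hg : Primrec g) :
    Primrec fun a => decide (f a ≤ g a) := (Primrec.nat_le.comp hf hg).decide
@[fun_prop] theorem P.decLt {f g : α → ℕ} (hf : Primrec f) (hg : Primrec g) :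
    Primrec fun a => decide (f a < g a) := (Primrec.nat_lt.comp hf hg).decide
@[fun_prop] theorem P.decEq [DecidableEq β] {f g : α → β} (hf : Primrec f) (hg : Primrec g) :
    Primrec fun a => decide (f a = g a) := (Primrec.eq.comp hf hg).decide
@[fun_prop] theorem P.ite {c : α → Prop} [DecidablePred c] {f g : α → σ}
    (hc : Primrec fun a => decide (c a)) (hf : Primrec f) (hg : Primrec g) :
    Primrec fun a => if c a then f a else g a := Primrec.ite hc.primrecPred hf hg
@[fun_prop] theorem P.decTrue {f : α → Bool} (hf : Primrec f) :
    Primrec fun a => decide (f a = true) := hf.of_eq fun a => by simp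
@[fun_prop] theorem P.cons {f : α → β} {g : α → List β} (hf : Primrec f) (hg : Primrec g) :
    Primrec fun a => f a :: g a := Primrec.list_cons.comp hf hg
@[fun_prop] theorem P.append {f g : α → List β} (hf : Primrec f) (hg : Primrec g) :
    Primrec fun a => f a ++ g a := Primrec.list_append.comp hf hg
@[fun_prop] theorem P.length {f : α → List β} (hf : Primrec f) :
    Primrec fun a => (f a).length := Primrec.list_length.comp hf
@[fun_prop] theorem P.range {f : α → ℕ} (hf : Primrec f) :
    Primrec fun a => List.range (f a) := Primrec.list_range.comp hf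
@[fun_prop] theorem P.getD {f : α → List β} {g : α → ℕ} {d : α → β} (hf : Primrec f)
    (hg : Primrec g) (hd : Primrec d) : Primrec fun a => (f a).getD (g a) (d a) :=
  (Primrec.option_getD.comp (Primrec.list_getElem?.comp hf hg) hd).of_eq fun a => by
    simp [List.getD_eq_getElem?_getD]
@[fun_prop] theorem P.take {f : α → ℕ} {g : α → List β} (hf : Primrec f) (hg : Primrec g) :
    Primrec fun a => (g a).take (f a) := Primrec.list_take.comp hf hg
@[fun_prop] theorem P.drop {f : α → ℕ} {g : α → List β} (hf : Primrec f) (hg : Primrec g) :
    Primrec fun a => (g a).drop (f a) := Primrec.list_drop.comp hf hg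
@[fun_prop] theorem P.map {f : α → List β} {g : α → β → σ} (hf : Primrec f)
    (hg : Primrec fun p : α × β => g p.1 p.2) : Primrec fun a => (f a).map (g a) :=
  Primrec.list_map hf hg
@[fun_prop] theorem P.foldr {f : α → List β} {g : α → σ} {h : α → β → σ → σ} (hf : Primrec f)
    (hg : Primrec g) (hh : Primrec fun p : α × β × σ => h p.1 p.2.1 p.2.2) :
    Primrec fun a => (f a).foldr (h a) (g a) :=
  Primrec.list_foldr (h := fun a p => h a p.1 p.2) hf hg hh
@[fun_prop] theorem P.all {f : α → List β} {g : α → β → Bool} (hf : Primrec f)
    (hg : Primrec fun p : α × β => g p.1 p.2) : Primrec fun a => (f a).all (g a) := by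
  have : Primrec fun a => (f a).foldr (fun b s => g a b && s) true := by fun_prop
  exact this.of_eq fun a => by induction f a <;> simp [*]
@[fun_prop] theorem P.any {f : α → List β} {g : α → β → Bool} (hf : Primrec f)
    (hg : Primrec fun p : α × β => g p.1 p.2) : Primrec fun a => (f a).any (g a) := by
  have : Primrec fun a => (f a).foldr (fun b s => g a b || s) false := by fun_prop
  exact this.of_eq fun a => by induction f a <;> simp [*]
@[fun_prop] theorem P.filter {f : α → List β} {g : α → β → Bool} (hf : Primrec f)
    (hg : Primrec fun p : α × β => g p.1 p.2) : Primrec fun a => (f a).filter (g a) := by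
  have : Primrec fun a => (f a).foldr (fun b s => bif g a b then b :: s else s) [] := by fun_prop
  exact this.of_eq fun a => by
    induction f a with
    | nil => rfl
    | cons b l ih => cases h : g a b <;> simp [h, ih]
@[fun_prop] theorem P.evaln {f : α → ℕ} {g : α → Nat.Partrec.Code} {h : α → ℕ} (hf : Primrec f)
    (hg : Primrec g) (hh : Primrec h) :
    Primrec fun a => Nat.Partrec.Code.evaln (f a) (g a) (h a) :=
  Nat.Partrec.Code.primrec_evaln.comp ((hf.pair hg).pair hh)
@[fun_prop] theorem P.natRec {f : α → ℕ} {g : α → β} {h : α → ℕ → β → β} (hf : Primrec f)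
    (hg : Primrec g) (hh : Primrec fun p : α × ℕ × β => h p.1 p.2.1 p.2.2) :
    Primrec fun a => (Nat.rec (g a) (h a) (f a) : β) :=
  Primrec.nat_rec' (h := fun a p => h a p.1 p.2) hf hg hh

end Prim

section Comp
variable {α β γ σ : Type} [Primcodable α] [Primcodable β] [Primcodable γ] [Primcodable σ]

@[fun_prop] theorem C.id : Computable (fun x : α => x) := Computable.id
@[fun_prop] theorem C.const (c : β) : Computable (fun _ : α => c) := Computable.const c
@[fun_prop] theorem C.comp {f : β → σ} {g : α → β} (hf : Computable f) (hg : Computable g) :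
    Computable fun a => f (g a) := hf.comp hg
@[fun_prop] theorem C.ofPrim {f : α → β} (hf : Primrec f) : Computable f := hf.to_comp
@[fun_prop] theorem C.pair {f : α → β} {g : α → γ} (hf : Computable f) (hg : Computable g) :
    Computable fun a => (f a, g a) := hf.pair hg
@[fun_prop] theorem C.fst {f : α → β × γ} (hf : Computable f) : Computable fun a => (f a).1 :=
  Computable.fst.comp hf
@[fun_prop] theorem C.snd {f : α → β × γ} (hf : Computable f) : Computable fun a => (f a).2 :=
  Computable.snd.comp hf
@[fun_prop] theorem C.cond {c : α → Bool} {f g : α → σ} (hc : Computable c) (hf : Computable f)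
    (hg : Computable g) : Computable fun a => bif c a then f a else g a := Computable.cond hc hf hg
@[fun_prop] theorem C.ite {c : α → Prop} [DecidablePred c] {f g : α → σ}
    (hc : Computable fun a => decide (c a)) (hf : Computable f) (hg : Computable g) :
    Computable fun a => if c a then f a else g a := by
  simpa [Bool.cond_decide] using Computable.cond hc hf hg
@[fun_prop] theorem C.decLe {f g : α → ℕ} (hf : Computable f) (hg : Computable g) :
    Computable fun a => decide (f a ≤ g a) := (Primrec.nat_le.decide.to_comp).comp hf hg
@[fun_prop] theorem C.decLt {f g : α → ℕ} (hf : Computable f) (hg : Computable g) :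
    Computable fun a => decide (f a < g a) := (Primrec.nat_lt.decide.to_comp).comp hf hg
@[fun_prop] theorem C.decEq [DecidableEq β] {f g : α → β} (hf : Computable f) (hg : Computable g) :
    Computable fun a => decide (f a = g a) := (Primrec.eq.decide.to_comp).comp hf hg
@[fun_prop] theorem C.decTrue {f : α → Bool} (hf : Computable f) :
    Computable fun a => decide (f a = true) := hf.of_eq fun a => by simp
@[fun_prop] theorem C.add {f g : α → ℕ} (hf : Computable f) (hg : Computable g) :
    Computable fun a => f a + g a := Primrec.nat_add.to_comp.comp hf hg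
@[fun_prop] theorem C.sub {f g : α → ℕ} (hf : Computable f) (hg : Computable g) :
    Computable fun a => f a - g a := Primrec.nat_sub.to_comp.comp hf hg
@[fun_prop] theorem C.natPair {f g : α → ℕ} (hf : Computable f) (hg : Computable g) :
    Computable fun a => Nat.pair (f a) (g a) := Primrec₂.natPair.to_comp.comp hf hg
@[fun_prop] theorem C.unpair {f : α → ℕ} (hf : Computable f) :
    Computable fun a => Nat.unpair (f a) := Primrec.unpair.to_comp.comp hf
@[fun_prop] theorem C.encode {f : α → β} (hf : Computable f) :
    Computable fun a => encode (f a) := Primrec.encode.to_comp.comp hf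
@[fun_prop] theorem C.ofNat {δ : Type} [Denumerable δ] {f : α → ℕ} (hf : Computable f) :
    Computable fun a => ofNat δ (f a) := (Primrec.ofNat δ).to_comp.comp hf
@[fun_prop] theorem C.and {f g : α → Bool} (hf : Computable f) (hg : Computable g) :
    Computable fun a => (f a && g a) := Primrec.and.to_comp.comp hf hg
@[fun_prop] theorem C.or {f g : α → Bool} (hf : Computable f) (hg : Computable g) :
    Computable fun a => (f a || g a) := Primrec.or.to_comp.comp hf hg
@[fun_prop] theorem C.not {f : α → Bool} (hf : Computable f) :
    Computable fun a => (!f a) := Primrec.not.to_comp.comp hf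
@[fun_prop] theorem C.beq [BEq β] [LawfulBEq β] {f g : α → β} (hf : Computable f)
    (hg : Computable g) : Computable fun a => (f a == g a) :=
  (P.beq (f := fun p : β × β => p.1) (g := fun p => p.2) Primrec.fst Primrec.snd).to_comp.comp
    (hf.pair hg)
@[fun_prop] theorem C.cons {f : α → β} {g : α → List β} (hf : Computable f) (hg : Computable g) :
    Computable fun a => f a :: g a := Primrec.list_cons.to_comp.comp hf hg
@[fun_prop] theorem C.append {f g : α → List β} (hf : Computable f) (hg : Computable g) :
    Computable fun a => f a ++ g a := Primrec.list_append.to_comp.comp hf hg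
@[fun_prop] theorem C.length {f : α → List β} (hf : Computable f) :
    Computable fun a => (f a).length := Primrec.list_length.to_comp.comp hf
@[fun_prop] theorem C.range {f : α → ℕ} (hf : Computable f) :
    Computable fun a => List.range (f a) := Primrec.list_range.to_comp.comp hf
@[fun_prop] theorem C.getD {f : α → List β} {g : α → ℕ} {d : α → β} (hf : Computable f)
    (hg : Computable g) (hd : Computable d) : Computable fun a => (f a).getD (g a) (d a) :=
  (P.getD (f := fun p : List β × ℕ × β => p.1) (g := fun p => p.2.1) (d := fun p => p.2.2)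
    (by fun_prop) (by fun_prop) (by fun_prop)).to_comp.comp (hf.pair (hg.pair hd))
@[fun_prop] theorem C.natRec {f : α → ℕ} {g : α → β} {h : α → ℕ → β → β} (hf : Computable f)
    (hg : Computable g) (hh : Computable fun p : α × ℕ × β => h p.1 p.2.1 p.2.2) :
    Computable fun a => (Nat.rec (g a) (h a) (f a) : β) :=
  Computable.nat_rec (h := fun a p => h a p.1 p.2) hf hg hh
@[fun_prop] theorem C.map {f : α → List β} {g : α → β → σ} (hf : Computable f)
    (hg : Computable fun p : α × β => g p.1 p.2) : Computable fun a => (f a).map (g a) := by
  have h1 : Computable fun p : α × ℕ × List σ =>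
      p.2.2 ++ (((f p.1)[p.2.1]?).map (g p.1)).toList := by
    refine Computable.list_append.comp (by fun_prop) (Primrec.optionToList.to_comp.comp ?_)
    refine Computable.option_map (Computable.list_getElem?.comp (by fun_prop) (by fun_prop)) ?_
    exact hg.comp (g := fun q : (α × ℕ × List σ) × β => (q.1.1, q.2)) (by fun_prop)
  have h2 := C.natRec (f := fun a => (f a).length) (g := fun _ => ([] : List σ))
    (h := fun a i acc => acc ++ (((f a)[i]?).map (g a)).toList)
    (Computable.list_length.comp hf) (by fun_prop) h1
  refine h2.of_eq fun a => ?_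
  have : ∀ n, (Nat.rec [] (fun i acc => acc ++ (((f a)[i]?).map (g a)).toList) n : List σ)
      = ((f a).take n).map (g a) := by
    intro n
    induction n with
    | zero => simp
    | succ n ih =>
      simp only [ih, List.take_add_one, List.map_append]
      cases (f a)[n]? <;> simp
  rw [this, List.take_length]
@[fun_prop] theorem C.all {f : α → List β} {g : α → β → Bool} (hf : Computable f)
    (hg : Computable fun p : α × β => g p.1 p.2) : Computable fun a => (f a).all (g a) := by
  have h1 : Primrec fun l : List Bool => l.all fun b => b := by fun_prop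
  exact (h1.to_comp.comp (C.map hf hg)).of_eq fun a => by simp [List.all_map, Function.comp_def]
@[fun_prop] theorem C.any {f : α → List β} {g : α → β → Bool} (hf : Computable f)
    (hg : Computable fun p : α × β => g p.1 p.2) : Computable fun a => (f a).any (g a) := by
  have h1 : Primrec fun l : List Bool => l.any fun b => b := by fun_prop
  exact (h1.to_comp.comp (C.map hf hg)).of_eq fun a => by simp [List.any_map, Function.comp_def]

/-- Unbounded search. -/
theorem C.search {p : α → β → Bool} (hp : Computable fun x : α × β => p x.1 x.2)
    (hex : ∀ a, ∃ b, p a b = true) : ∃ f : α → β, Computable f ∧ ∀ a, p a (f a) = true := by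
  have h1 : Computable₂ fun (a : α) (n : ℕ) =>
      ((decode (α := β) n).bind fun b => bif p a b then some b else none) := by
    refine Computable.option_bind (Computable.decode.comp Computable.snd) ?_
    have : Computable fun q : (α × ℕ) × β => p q.1.1 q.2 :=
      hp.comp (g := fun q : (α × ℕ) × β => (q.1.1, q.2)) (by fun_prop)
    exact Computable.cond this (Computable.option_some.comp Computable.snd) (Computable.const _)
  have h2 := Partrec.rfindOpt h1
  have h3 : ∀ a, (Nat.rfindOpt fun n =>
      ((decode (α := β) n).bind fun b => bif p a b then some b else none)).Dom := by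
    intro a
    obtain ⟨b, hb⟩ := hex a
    exact Nat.rfindOpt_dom.2 ⟨Encodable.encode b, b, by simp [hb]⟩
  refine ⟨fun a => (Nat.rfindOpt _).get (h3 a), h2.of_eq_tot fun a => Part.get_mem _, fun a => ?_⟩
  obtain ⟨n, hn⟩ := Nat.rfindOpt_spec (Part.get_mem (h3 a))
  simp only [Option.mem_def, Option.bind_eq_some_iff] at hn
  obtain ⟨b, -, hb⟩ := hn
  cases h : p a b
  · simp [h] at hb
  · simp only [h, cond_true, Option.some.injEq] at hb
    rw [hb] at h; exact h

end Comp

end Pool.Agent.MP_c1eef4_lc.H62
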