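import Pool.Agent.MP_c1eef4_lc.H62.Sat

/-! Autostability. -/

namespace Pool.Agent.MP_c1eef4_lc.H62

open FirstOrder FirstOrder.Language Filter Encodable

attribute [local irreducible] Primrec Computable

theorem OK.cases {k x : ℕ} (h : OK k x) (h0 : x ≠ 0) : x = 1 ∨ (x = 2 ∧ Al k) := by
  rcases h with h | ⟨-, h⟩
  · exact absurd h h0
  · exact h

theorem Al_succ {j t : ℕ} : Al (ar j (t + 1)) ↔ Bt j t := by simp [Al]

/-- A computable decision procedure for the basic relation of a generic colouring yields a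
computable generic colouring with the same basic relation. -/
theorem exists_colouring {U : Set ℕ} {c0 : Finset ℕ → ℕ} (hg : GenOn U c0) (uB : ℕ → Bool)
    (huc : Computable uB) (hu : ∀ a, uB a = true ↔ a ∈ U) (EB : List ℕ × List ℕ → Bool)
    (hEc : Computable EB)
    (hE : ∀ x y, (∀ a ∈ x, a ∈ U) → (∀ a ∈ y, a ∈ U) → (EB (x, y) = true ↔ Er c0 x y)) :
    ∃ (cl : List ℕ → ℕ) (c : Finset ℕ → ℕ), Computable cl ∧ GenOn U c ∧
      (∀ x y, Er c x y ↔ Er c0 x y) ∧
      ∀ l, (∀ a ∈ l, a ∈ U) → cl l = if l.Nodup then c l.toFinset else 0 := by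
  classical
  have hone : ∀ k, 1 ≤ k → ∃ l : List ℕ, (∀ a ∈ l, a ∈ U) ∧ l.Nodup ∧ l.length = k ∧
      c0 l.toFinset = 1 := fun k hk => hg.exists_col hk (Or.inr ⟨hk, Or.inl rfl⟩)
  have hok : ∀ l : List ℕ, (∀ a ∈ l, a ∈ U) → l.Nodup → OK l.length (c0 l.toFinset) := by
    intro l h1 h2
    rw [← List.toFinset_card_of_nodup h2]
    exact hg.ok _ fun a ha => h1 a (List.mem_toFinset.1 ha)
  obtain ⟨rep, hrepc, hrep⟩ := C.search (α := ℕ × ℕ) (β := List ℕ)
    (p := fun jt x => (x.all fun a => uB a) && x.length == ar jt.1 jt.2 && EB (x, x))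
    (by
      have : Computable fun x : (ℕ × ℕ) × List ℕ => ar x.1.1 x.1.2 := C.ofPrim (by fun_prop)
      fun_prop)
    (fun jt => by
      obtain ⟨l, h1, h2, h3, h4⟩ := hone _ (ar_pos jt.1 jt.2)
      refine ⟨l, ?_⟩
      simp only [Bool.and_eq_true, List.all_eq_true, hu, beq_iff_eq, hE l l h1 h1]
      exact ⟨⟨h1, h3⟩, h2, h2, by omega, rfl, rfl⟩)
  have hrep' : ∀ j t, (∀ a ∈ rep (j, t), a ∈ U) ∧ (rep (j, t)).length = ar j t ∧
      (rep (j, t)).Nodup ∧ c0 (rep (j, t)).toFinset ≠ 0 := by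
    intro j t
    have := hrep (j, t)
    simp only [Bool.and_eq_true, List.all_eq_true, hu, beq_iff_eq] at this
    have h2 := (hE _ _ this.1.1 this.1.1).1 this.2
    exact ⟨this.1.1, this.1.2, h2.1, h2.2.2.1⟩
  obtain ⟨i, hi⟩ := exists_index (β := List ℕ)
    (fun w x => (x.all fun a => uB a) && x.length == ar w.unpair.1 (w.unpair.2 + 1) &&
      EB (x, rep (w.unpair.1, 1)))
    (by
      have : Computable fun x : ℕ × List ℕ => ar x.1.unpair.1 (x.1.unpair.2 + 1) :=
        C.ofPrim (by fun_prop)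
      fun_prop)
  have hi' : ∀ j t, Halts i (Nat.pair j t) ↔ ∃ x : List ℕ, (∀ a ∈ x, a ∈ U) ∧ x.Nodup ∧
      x.length = ar j (t + 1) ∧ c0 x.toFinset = c0 (rep (j, 1)).toFinset := by
    intro j t
    rw [hi]
    refine exists_congr fun x => ?_
    obtain ⟨r1, r2, r3, r4⟩ := hrep' j 1
    simp only [Nat.unpair_pair, Bool.and_eq_true, List.all_eq_true, hu, beq_iff_eq]
    constructor
    · rintro ⟨⟨h1, h2⟩, h3⟩
      have := (hE _ _ h1 r1).1 h3
      exact ⟨h1, this.1, h2, this.2.2.2.1⟩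
    · rintro ⟨h1, h2, h3, h4⟩
      exact ⟨⟨h1, h3⟩, (hE _ _ h1 r1).2 ⟨h2, r3, by rwa [h4], h4, by rw [h3, r2]; simp⟩⟩
  have htwo : ∀ j, c0 (rep (j, 1)).toFinset = 2 → ∀ t, Halts i (Nat.pair j t) ↔ Bt j t := by
    intro j h t
    rw [hi', h, ← Al_succ]
    constructor
    · rintro ⟨x, h1, h2, h3, h4⟩
      have := hok x h1 h2
      rw [h3, h4] at this
      rcases this.cases (by omega) with h | h
      · omega
      · exact h.2
    · intro hA
      exact hg.exists_col (ar_pos _ _) (Or.inr ⟨ar_pos _ _, Or.inr ⟨rfl, hA⟩⟩)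
  obtain ⟨d, hdc, hd⟩ := core2 i
    (fun j => (hi' j 0).2 ⟨rep (j, 1), (hrep' j 1).1, (hrep' j 1).2.2.1, (hrep' j 1).2.1, rfl⟩)
    (fun j => by
      obtain ⟨r1, r2, r3, r4⟩ := hrep' j 1
      rcases (hok _ r1 r3).cases r4 with h | h
      · left
        intro t
        rw [hi', h]
        exact hone _ (ar_pos _ _)
      · exact Or.inr (htwo j h.1))
  set ρ : ℕ → List ℕ := fun j => rep (j, if d j = 0 then 1 else d j) with hρ
  have hρc : Computable ρ := by rw [hρ]; fun_prop
  have hρW : ∀ j, c0 (ρ j).toFinset = 2 → Wj j := by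
    intro j h t
    by_cases h0 : d j = 0
    · simp only [hρ, h0, if_true] at h
      exact (htwo j h t).1 ((hd j).1 h0 t)
    · simp only [hρ, h0, if_false] at h
      obtain ⟨v, hv⟩ := Nat.exists_eq_succ_of_ne_zero h0
      obtain ⟨r1, r2, r3, r4⟩ := hrep' j (d j)
      rcases (hok _ r1 r3).cases r4 with h' | h'
      · omega
      · rw [r2, hv, Nat.succ_eq_add_one, Al_succ] at h'
        exact absurd h'.2 ((hd j).2 v hv)
  refine ⟨fun x => bif EB (x, x) then (bif EB (x, ρ (colm x.length)) then 1 else 2) else 0,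
    swc (fun j => c0 (ρ j).toFinset = 2) c0, ?_, hg.swc hρW, Er_swc _ _, fun l hl => ?_⟩
  · have : Computable fun x : List ℕ => colm x.length := C.ofPrim (by fun_prop)
    fun_prop
  · obtain ⟨r1, r2, r3, r4⟩ := hrep' (colm l.length) (if d (colm l.length) = 0 then 1
      else d (colm l.length))
    have e1 := hE l l hl hl
    have e2 := hE l _ hl r1
    change (EB (l, ρ (colm l.length)) = true ↔ Er c0 l (ρ (colm l.length))) at e2
    change c0 (ρ (colm l.length)).toFinset ≠ 0 at r4
    have r5 : c0 (ρ (colm l.length)).toFinset < 3 := (hok _ r1 r3).lt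
    by_cases hn : l.Nodup
    · have r6 := (hok l hl hn).lt
      have e3 : Er c0 l l ↔ c0 l.toFinset ≠ 0 := by simp [Er, hn]
      have e4 : Er c0 l (ρ (colm l.length)) ↔
          c0 l.toFinset = c0 (ρ (colm l.length)).toFinset :=
        ⟨fun h => h.2.2.2.1, fun h => ⟨hn, r3, by rwa [h], h, by
          change _ = colm (rep _).length
          rw [r2, colm_ar]⟩⟩
      rw [e3] at e1
      rw [e4] at e2
      simp only [if_pos hn, swc, List.toFinset_card_of_nodup hn, flip]
      cases h1 : EB (l, l) <;> cases h2 : EB (l, ρ (colm l.length)) <;>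
        simp only [h1, h2, Bool.false_eq_true, false_iff, true_iff, cond_true, cond_false]
          at e1 e2 ⊢ <;> split_ifs <;> omega
    · have : EB (l, l) = false := by
        cases h : EB (l, l)
        · rfl
        · exact absurd (e1.1 h).1 hn
      simp [this, hn]

theorem copy_colouring (U : Set ℕ) [L.Structure U] (hU : IsComputableStr U) (e0 : U ≃[L] ℕ) :
    ∃ (uB : ℕ → Bool) (cl : List ℕ → ℕ) (c : Finset ℕ → ℕ), Computable uB ∧
      (∀ a, uB a = true ↔ a ∈ U) ∧ Computable cl ∧ GenOn U c ∧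
      (∀ l, (∀ a ∈ l, a ∈ U) → cl l = if l.Nodup then c l.toFinset else 0) ∧
      ∀ n (k : L.Relations n) (v : Fin n → U),
        Structure.RelMap k v ↔ ErSplit c k (List.ofFn fun i => (v i : ℕ)) := by
  classical
  obtain ⟨h1, h2⟩ := hU
  set g : ℕ → ℕ := fun a => if h : a ∈ U then e0 ⟨a, h⟩ else 0 with hgdef
  have hgv : ∀ a : U, g a = e0 a := fun a => by simp [hgdef]
  have hg : Set.BijOn g U Set.univ := by
    refine ⟨fun _ _ => trivial, fun a ha b hb e => ?_, fun m _ => ?_⟩
    · rw [hgv ⟨a, ha⟩, hgv ⟨b, hb⟩] at e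
      exact congrArg Subtype.val (e0.injective e)
    · exact ⟨e0.symm m, (e0.symm m).2, by rw [hgv]; simp⟩
  have hEr : ∀ x y : List ℕ, (∀ a ∈ x, a ∈ U) → (∀ a ∈ y, a ∈ U) →
      (Er (fun S => colF (S.image g)) x y ↔ Er colF (x.map g) (y.map g)) := by
    intro x y hx hy
    have hn : ∀ z : List ℕ, (∀ a ∈ z, a ∈ U) → ((z.map g).Nodup ↔ z.Nodup) := fun z hz =>
      ⟨fun h => h.of_map _, fun h => h.map_on fun a ha b hb e => hg.injOn (hz a ha) (hz b hb) e⟩
    simp only [Er, toFinset_map, List.length_map, hn x hx, hn y hy]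
  have hrel : ∀ n (k : L.Relations n) (v : Fin n → U), Structure.RelMap k v ↔
      ErSplit (fun S => colF (S.image g)) k (List.ofFn fun i => (v i : ℕ)) := by
    intro n k v
    have hm : ∀ a ∈ List.ofFn fun i => (v i : ℕ), a ∈ U := by
      intro a ha
      obtain ⟨i, rfl⟩ := List.mem_ofFn.1 ha
      exact (v i).2
    rw [← e0.map_rel, relMap_iff, ErSplit, ErSplit, hEr _ _
      (fun a ha => hm a (List.mem_of_mem_take ha)) (fun a ha => hm a (List.mem_of_mem_drop ha)),
      List.map_take, List.map_drop, List.map_ofFn]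
    simp only [Function.comp_def, hgv]
  have h3 := h2.decide
  obtain ⟨cl, c, q1, q2, q3, q4⟩ := exists_colouring (gen_colF.comap hg)
    (fun a => decide (a ∈ U)) h1.decide (by simp)
    (fun p => decide (∃ (n : ℕ) (v : Fin n → U), List.ofFn (fun i => (v i : ℕ)) = p.1 ++ p.2 ∧
      Structure.RelMap (L := L) (n := n) p.1.length v))
    (C.comp h3 (g := fun p : List ℕ × List ℕ => (p.1.length, p.1 ++ p.2)) (by fun_prop))
    (fun x y hx hy => by
      simp only [decide_eq_true_eq, hrel]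
      constructor
      · rintro ⟨n, v, h4, h5⟩
        rwa [h4, ErSplit, List.take_left, List.drop_left] at h5
      · intro h4
        refine ⟨(x ++ y).length, fun i => ⟨(x ++ y)[i.1], ?_⟩, List.ofFn_getElem, ?_⟩
        · rcases List.mem_append.1 (List.getElem_mem i.2) with h | h
          · exact hx _ h
          · exact hy _ h
        · simp only [List.ofFn_getElem, ErSplit, List.take_left, List.drop_left]
          exact h4)
  refine ⟨fun a => decide (a ∈ U), cl, c, h1.decide, by simp, q1, q2, q4, fun n k v => ?_⟩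
  rw [hrel, ErSplit, ErSplit, q3]

theorem autostable (U V : Set ℕ) [L.Structure U] [L.Structure V] (hU : IsComputableStr U)
    (hV : IsComputableStr V) (eU : U ≃[L] ℕ) (eV : V ≃[L] ℕ) :
    ∃ (e : U ≃[L] V) (f : ℕ → ℕ), Computable f ∧ ∀ x : U, f x = e x := by
  classical
  obtain ⟨uB, cl, c, huc, hu, hclc, hc, hcl, hr⟩ := copy_colouring U hU eU
  obtain ⟨vB, cl', c', hvc, hv, hclc', hc', hcl', hr'⟩ := copy_colouring V hV eV
  set Good : List (ℕ × ℕ) → Bool := fun l => (l.all fun p => uB p.1 && vB p.2) &&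
    (l.all fun p => l.all fun q => (p.1 == q.1) == (p.2 == q.2)) &&
    (subl l).all fun l' => cl (l'.map fun p => p.1) == cl' (l'.map fun p => p.2) with hGood
  have hGc : Computable Good := by
    have : Computable fun l : List (ℕ × ℕ) => subl l := C.ofPrim (by fun_prop)
    rw [hGood]; fun_prop
  have hG : ∀ l, Good l = true ↔ Pat U V c c' l.toFinset := by
    intro l
    simp only [hGood, Bool.and_eq_true, List.all_eq_true, hu, hv, beq_iff_eq]
    constructor
    · rintro ⟨⟨h1, h2⟩, h3⟩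
      have h4 : ∀ p ∈ l.toFinset, ∀ q ∈ l.toFinset, p.1 = q.1 ↔ p.2 = q.2 := by
        intro p hp q hq
        have := h2 p (List.mem_toFinset.1 hp) q (List.mem_toFinset.1 hq)
        rw [← beq_iff_eq, this, beq_iff_eq]
      refine ⟨fun p hp => h1 p (List.mem_toFinset.1 hp), h4, fun S hS => ?_⟩
      obtain ⟨l', hl', hn, rfl⟩ := exists_subl hS
      have hsub := (mem_subl.1 hl').subset
      have n1 : (l'.map fun p => p.1).Nodup := hn.map_on fun p hp q hq e =>
        Prod.ext e ((h4 p (List.mem_toFinset.2 (hsub hp)) q (List.mem_toFinset.2 (hsub hq))).1 e)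
      have n2 : (l'.map fun p => p.2).Nodup := hn.map_on fun p hp q hq e =>
        Prod.ext ((h4 p (List.mem_toFinset.2 (hsub hp)) q (List.mem_toFinset.2 (hsub hq))).2 e) e
      have := h3 l' hl'
      rw [hcl, hcl', if_pos n1, if_pos n2, toFinset_map, toFinset_map] at this
      · exact this
      · intro a ha
        obtain ⟨p, hp, rfl⟩ := List.mem_map.1 ha
        exact (h1 p (hsub hp)).2
      · intro a ha
        obtain ⟨p, hp, rfl⟩ := List.mem_map.1 ha
        exact (h1 p (hsub hp)).1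
    · intro h
      refine ⟨⟨fun p hp => h.mem p (List.mem_toFinset.2 hp), fun p hp q hq => ?_⟩, fun l' hl' => ?_⟩
      · rw [Bool.eq_iff_iff, beq_iff_eq, beq_iff_eq]
        exact h.eq p (List.mem_toFinset.2 hp) q (List.mem_toFinset.2 hq)
      · have hsub : ∀ p ∈ l', p ∈ l.toFinset :=
          fun p hp => List.mem_toFinset.2 ((mem_subl.1 hl').subset hp)
        rw [hcl, hcl']
        · have h1 := h.nodup hsub
          have h2 := h.colList hsub
          exact if_congr h1 h2 rfl
        · intro a ha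
          obtain ⟨p, hp, rfl⟩ := List.mem_map.1 ha
          exact (h.mem p (hsub p hp)).2
        · intro a ha
          obtain ⟨p, hp, rfl⟩ := List.mem_map.1 ha
          exact (h.mem p (hsub p hp)).1
  obtain ⟨F, hFc, hF⟩ := C.search (α := List (ℕ × ℕ) × ℕ) (β := ℕ)
    (p := fun la b => !(Good la.1 && uB la.2) || Good ((la.2, b) :: la.1)) (by fun_prop)
    (fun la => by
      cases h : (Good la.1 && uB la.2)
      · exact ⟨0, rfl⟩
      · rw [Bool.and_eq_true, hG, hu] at h
        obtain ⟨b, hb⟩ := h.1.forth hc hc' h.2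
        exact ⟨b, by rw [(hG _).2 (by rwa [List.toFinset_cons])]; rfl⟩)
  obtain ⟨B, hBc, hB⟩ := C.search (α := List (ℕ × ℕ) × ℕ) (β := ℕ)
    (p := fun lb a => !(Good lb.1 && vB lb.2) || Good ((a, lb.2) :: lb.1)) (by fun_prop)
    (fun lb => by
      cases h : (Good lb.1 && vB lb.2)
      · exact ⟨0, rfl⟩
      · rw [Bool.and_eq_true, hG, hv] at h
        obtain ⟨a, ha⟩ := h.1.back hc hc' h.2
        exact ⟨a, by rw [(hG _).2 (by rwa [List.toFinset_cons])]; rfl⟩)
  set st1 : ℕ → List (ℕ × ℕ) → List (ℕ × ℕ) :=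
    fun s l => bif uB s then (s, F (l, s)) :: l else l with hst1
  set st2 : ℕ → List (ℕ × ℕ) → List (ℕ × ℕ) :=
    fun s l => bif vB s then (B (l, s), s) :: l else l with hst2
  have g1 : ∀ s l, Good l = true → Good (st1 s l) = true := by
    intro s l hl
    have := hF (l, s)
    cases h : uB s
    · simpa [hst1, h] using hl
    · simpa [hst1, h, hl] using this
  have g2 : ∀ s l, Good l = true → Good (st2 s l) = true := by
    intro s l hl
    have := hB (l, s)
    cases h : vB s
    · simpa [hst2, h] using hl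
    · simpa [hst2, h, hl] using this
  have m1 : ∀ s l p, p ∈ l → p ∈ st1 s l := by
    intro s l p hp
    cases h : uB s <;> simp [hst1, h, hp]
  have m2 : ∀ s l p, p ∈ l → p ∈ st2 s l := by
    intro s l p hp
    cases h : vB s <;> simp [hst2, h, hp]
  set sq : ℕ → List (ℕ × ℕ) := fun s => Nat.rec [] (fun s l => st2 s (st1 s l)) s with hsq
  have hsucc : ∀ s, sq (s + 1) = st2 s (st1 s (sq s)) := fun s => rfl
  have hsqc : Computable sq := by
    have c1 : Computable fun p : ℕ × List (ℕ × ℕ) => st1 p.1 p.2 := by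
      simp only [hst1]; fun_prop
    have c2 : Computable fun p : ℕ × List (ℕ × ℕ) => st2 p.1 p.2 := by
      simp only [hst2]; fun_prop
    exact C.natRec (f := fun s => s) (g := fun _ => []) (h := fun _ s l => st2 s (st1 s l))
      (by fun_prop) (by fun_prop) (by fun_prop)
  have hgood : ∀ s, Pat U V c c' (sq s).toFinset := by
    intro s
    rw [← hG]
    induction s with
    | zero => exact (hG []).2 (Pat.empty hc hc')
    | succ s ih => exact g2 _ _ (g1 _ _ ih)
  have hmemF : ∀ a : U, ((a : ℕ), F (sq a, a)) ∈ sq (a + 1) := fun a => by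
    rw [hsucc]
    exact m2 _ _ _ (by simp [hst1, (hu a).2 a.2])
  have hmemB : ∀ b : V, (B (st1 b (sq b), b), (b : ℕ)) ∈ sq (b + 1) := fun b => by
    simp [hsucc, hst2, (hv b).2 b.2]
  have hFV : ∀ a : U, F (sq a, a) ∈ V := fun a =>
    ((hgood (a + 1)).mem _ (List.mem_toFinset.2 (hmemF a))).2
  have hBU : ∀ b : V, B (st1 b (sq b), b) ∈ U := fun b =>
    ((hgood (b + 1)).mem _ (List.mem_toFinset.2 (hmemB b))).1
  obtain ⟨e, he⟩ := iso_of_chain (A := U) (B := V)
    (fun n => {p | ((p.1 : ℕ), (p.2 : ℕ)) ∈ sq n})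
    (monotone_nat_of_le_succ fun n p hp => m2 _ _ _ (m1 _ _ _ hp))
    (fun a => ⟨a + 1, ⟨F (sq a, a), hFV a⟩, hmemF a⟩)
    (fun b => ⟨b + 1, ⟨B (st1 b (sq b), b), hBU b⟩, hmemB b⟩)
    (fun n p hp q hq => by
      have := (hgood n).eq _ (List.mem_toFinset.2 hp) _ (List.mem_toFinset.2 hq)
      rwa [Subtype.ext_iff, Subtype.ext_iff])
    (fun n k r σ hσ => by
      rw [hr, hr']
      exact (hgood n).erSplit (fun i => (((σ i).1 : ℕ), ((σ i).2 : ℕ)))
        (fun i => List.mem_toFinset.2 (hσ i)) r)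
  refine ⟨e, fun a => F (sq a, a), by fun_prop, fun x => ?_⟩
  rw [he (x + 1) x ⟨F (sq x, x), hFV x⟩ (hmemF x)]

end Pool.Agent.MP_c1eef4_lc.H62
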