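import Pool.Agent.MP_c1eef4_lc.H62.Gen

/-! The explicit primitive recursive generic colouring of the finite subsets of `ℕ`. -/

namespace Pool.Agent.MP_c1eef4_lc.H62

open Filter Encodable

attribute [local irreducible] Primrec Computable

def colC (k m idx : ℕ) : ℕ :=
  bif (dl m).getD idx 0 == 1 then 1
  else bif (dl m).getD idx 0 == 2 && (levl k == 0 || BB (colm k) (levl k - 1) m) then 2 else 0

def colF (S : Finset ℕ) : ℕ :=
  if S = ∅ then 0 else colC S.card (S.sup id) (∑ x ∈ S, 2 ^ x - 2 ^ S.sup id)

def nodupB (l : List ℕ) : Bool :=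
  (List.range l.length).all fun j => (List.range j).all fun i => !(l.getD i 0 == l.getD j 0)

def lmax (l : List ℕ) : ℕ := l.foldr (fun a b => max a b) 0
def lmask (l : List ℕ) : ℕ := l.foldr (fun a b => 2 ^ a + b) 0

def colL (l : List ℕ) : ℕ :=
  bif nodupB l && !(l.length == 0) then colC l.length (lmax l) (lmask l - 2 ^ lmax l) else 0

section
variable {α : Type} [Primcodable α] {f g h : α → ℕ} {l l' : α → List ℕ}
@[fun_prop] theorem colm_prim (hf : Primrec f) : Primrec fun a => colm (f a) := by
  unfold colm; fun_prop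
@[fun_prop] theorem levl_prim (hf : Primrec f) : Primrec fun a => levl (f a) := by
  unfold levl; fun_prop
@[fun_prop] theorem ar_prim (hf : Primrec f) (hg : Primrec g) : Primrec fun a => ar (f a) (g a) := by
  unfold ar; fun_prop
@[fun_prop] theorem colC_prim (hf : Primrec f) (hg : Primrec g) (hh : Primrec h) :
    Primrec fun a => colC (f a) (g a) (h a) := by unfold colC; fun_prop
@[fun_prop] theorem nodupB_prim (hl : Primrec l) : Primrec fun a => nodupB (l a) := by
  unfold nodupB; fun_prop
@[fun_prop] theorem lmax_prim (hl : Primrec l) : Primrec fun a => lmax (l a) := by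
  unfold lmax; fun_prop
@[fun_prop] theorem lmask_prim (hl : Primrec l) : Primrec fun a => lmask (l a) := by
  unfold lmask; fun_prop
@[fun_prop] theorem colL_prim (hl : Primrec l) : Primrec fun a => colL (l a) := by
  unfold colL; fun_prop
end

theorem nodupB_iff {l : List ℕ} : nodupB l = true ↔ l.Nodup := by
  simp only [nodupB, List.all_eq_true, List.mem_range, Bool.not_eq_true', beq_eq_false_iff_ne,
    List.Nodup, List.pairwise_iff_getElem]
  constructor
  · intro h i j hi hj hij
    have := h j hj i hij
    simpa [List.getD_eq_getElem?_getD, hi, hj] using this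
  · intro h j hj i hij
    have := h i j (by omega) hj hij
    simpa [List.getD_eq_getElem?_getD, hj, (by omega : i < l.length)] using this

theorem lmax_eq (l : List ℕ) : lmax l = l.toFinset.sup id := by
  induction l with
  | nil => rfl
  | cons a l ih =>
    rw [List.toFinset_cons, Finset.sup_insert, ← ih]; rfl

theorem lmask_eq {l : List ℕ} (h : l.Nodup) : lmask l = ∑ x ∈ l.toFinset, 2 ^ x := by
  induction l with
  | nil => rfl
  | cons a l ih =>
    rw [List.nodup_cons] at h
    rw [List.toFinset_cons, Finset.sum_insert (by simpa using h.1), ← ih h.2]; rfl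

theorem colL_of_nodup {l : List ℕ} (h : l.Nodup) : colL l = colF l.toFinset := by
  unfold colL colF
  rw [nodupB_iff.2 h, lmax_eq, lmask_eq h, List.toFinset_card_of_nodup h]
  cases l <;> simp

theorem colL_of_not_nodup {l : List ℕ} (h : ¬ l.Nodup) : colL l = 0 := by
  unfold colL
  have : nodupB l = false := by
    cases h2 : nodupB l
    · rfl
    · exact absurd (nodupB_iff.1 h2) h
  simp [this]

theorem gen_colF : GenOn Set.univ colF where
  ok S _ := by
    unfold colF
    split_ifs with h
    · exact Or.inl rfl
    · have hk : 1 ≤ S.card := Finset.card_pos.2 (Finset.nonempty_iff_ne_empty.2 h)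
      unfold colC
      generalize (dl (S.sup id)).getD (∑ x ∈ S, 2 ^ x - 2 ^ S.sup id) 0 = d
      cases h1 : d == 1
      · cases h2 : (d == 2 && (levl S.card == 0 || BB (colm S.card) (levl S.card - 1) (S.sup id)))
        · exact Or.inl rfl
        · refine Or.inr ⟨hk, Or.inr ⟨rfl, ?_⟩⟩
          simp only [Bool.and_eq_true, Bool.or_eq_true, beq_iff_eq] at h2
          exact h2.2.imp id fun h => ⟨_, h⟩
      · exact Or.inr ⟨hk, Or.inl rfl⟩
  ext F _ d hd := by
    classical
    have h1 : ∀ S ∈ F.powerset, ∀ᶠ s in atTop, Al (S.card + 1) →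
        (levl (S.card + 1) == 0 || BB (colm (S.card + 1)) (levl (S.card + 1) - 1) s) = true := by
      intro S _
      by_cases hA : Al (S.card + 1)
      · rcases hA with h | ⟨s, hs⟩
        · exact Eventually.of_forall fun s _ => by simp [h]
        · filter_upwards [eventually_ge_atTop s] with t ht _
          simp [BB_mono ht hs]
      · exact Eventually.of_forall fun s h => absurd h hA
    obtain ⟨s0, hs0⟩ := eventually_atTop.1 (F.powerset.eventually_all.2 h1)
    set N := s0 + F.sup id + 1 + ∑ x ∈ F, 2 ^ x with hN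
    set φ : ℕ → ℕ := fun idx =>
      if h : ∃ S : Finset ℕ, ∑ x ∈ S, 2 ^ x = idx then d h.choose else 0 with hφ
    set m := encode ((List.range N).map φ) with hm
    have hmN : N ≤ m := by simpa using Encodable.length_le_encode ((List.range N).map φ)
    have hlt : ∀ x ∈ F, x < m := fun x hx => by
      have : x ≤ F.sup id := Finset.le_sup (f := id) hx
      omega
    refine ⟨m, trivial, fun hx => lt_irrefl _ (hlt m hx), fun S hS => ?_⟩
    have hmS : m ∉ S := fun hx => lt_irrefl _ (hlt m (hS hx))
    have hsup : (insert m S).sup id = m := by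
      rw [Finset.sup_insert]
      exact sup_eq_left.2 (Finset.sup_le fun x hx => (hlt x (hS hx)).le)
    have hidx : ∑ x ∈ S, 2 ^ x < N := by
      have := Finset.sum_le_sum_of_subset (f := fun x => 2 ^ x) hS
      omega
    have hget : (dl m).getD (∑ x ∈ S, 2 ^ x) 0 = d S := by
      have hex : ∃ S' : Finset ℕ, ∑ x ∈ S', 2 ^ x = ∑ x ∈ S, 2 ^ x := ⟨S, rfl⟩
      have h2 : hex.choose = S := Finset.geomSum_injective le_rfl hex.choose_spec
      rw [hm, dl_encode]
      simp only [List.getD_eq_getElem?_getD, List.getElem?_map, List.getElem?_range hidx,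
        Option.map_some, Option.getD_some, hφ]
      rw [dif_pos hex, h2]
    unfold colF
    rw [if_neg (Finset.insert_ne_empty _ _), hsup, Finset.sum_insert hmS, Nat.add_sub_cancel_left,
      Finset.card_insert_of_notMem hmS]
    unfold colC
    rw [hget]
    rcases hd S hS with h | ⟨-, h | ⟨h, hA⟩⟩
    · simp [h]
    · simp [h]
    · rw [hs0 m (by omega) S (Finset.mem_powerset.2 hS) hA]
      simp [h]

/-- Decision procedure for the basic relation. -/
def ErB (x y : List ℕ) : Bool :=
  !(colL x == 0) && colL x == colL y && colm x.length == colm y.length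

@[fun_prop] theorem ErB_prim {α : Type} [Primcodable α] {l l' : α → List ℕ} (hl : Primrec l)
    (hl' : Primrec l') : Primrec fun a => ErB (l a) (l' a) := by
  unfold ErB; fun_prop

theorem ErB_iff {x y : List ℕ} : ErB x y = true ↔ Er colF x y := by
  simp only [ErB, Er, Bool.and_eq_true, Bool.not_eq_true', beq_eq_false_iff_ne, beq_iff_eq]
  constructor
  · rintro ⟨⟨h1, h2⟩, h3⟩
    have hx : x.Nodup := by_contra fun h => h1 (colL_of_not_nodup h)
    have hy : y.Nodup := by_contra fun h => h1 (h2.trans (colL_of_not_nodup h))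
    rw [colL_of_nodup hx] at h1 h2
    rw [colL_of_nodup hy] at h2
    exact ⟨hx, hy, h1, h2, h3⟩
  · rintro ⟨hx, hy, h1, h2, h3⟩
    rw [colL_of_nodup hx, colL_of_nodup hy]
    exact ⟨⟨h1, h2⟩, h3⟩

end Pool.Agent.MP_c1eef4_lc.H62
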