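import Pool.Agent.MP_c1eef4_lc.H62.Lim

/-! The recursion-theoretic core: a uniformly left-c.e. sequence `b j ∈ ℕ ∪ {∞}`
(`Bt j t` says `t < b j`). -/

namespace Pool.Agent.MP_c1eef4_lc.H62

open Encodable Denumerable Filter Nat.Partrec

attribute [local irreducible] Primrec Computable

/-- The list of naturals coded by a number. -/
def dl (j : ℕ) : List ℕ := (decode (α := List ℕ) j).getD []

@[fun_prop] theorem dl_prim {α : Type} [Primcodable α] {f : α → ℕ} (hf : Primrec f) :
    Primrec fun a => dl (f a) :=
  Primrec.option_getD.comp (Primrec.decode.comp hf) (Primrec.const _)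

@[simp] theorem dl_encode (l : List ℕ) : dl (encode l) = l := by simp [dl]

theorem encode_dl (j : ℕ) : encode (dl j) = j := by
  have := Denumerable.decode_eq_ofNat (List ℕ) j
  have h2 := Denumerable.encode_ofNat (α := List ℕ) j
  unfold dl
  rw [this]
  exact h2

def InI (i j : ℕ) : Bool := decide (i < (dl j).length) && (dl j).getD i 0 == 0

def UU (i j t s : ℕ) : Bool := (List.range (t + 1)).all fun t' => Hlt i (Nat.pair j t') s

def GG (i l s : ℕ) : Bool := (List.range l).all fun w => !(InI i w.unpair.1) || Hlt i w s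

def Act (j s : ℕ) : Bool := (List.range (dl j).length).all fun i =>
  (dl j).getD i 0 == 0 || (GG i ((dl j).getD i 0 - 1) s && !GG i ((dl j).getD i 0) s)

def BB (j t s : ℕ) : Bool := (List.range (s + 1)).any fun s' =>
  Act j s' && decide (t < s') && UU (dl j).length j t s' &&
    (List.range (dl j).length).all fun i => !(InI i j) || UU i j (t + 1) s'

section
variable {α : Type} [Primcodable α] {f g h k : α → ℕ}
@[fun_prop] theorem InI_prim (hf : Primrec f) (hg : Primrec g) :
    Primrec fun a => InI (f a) (g a) := by unfold InI; fun_prop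
@[fun_prop] theorem UU_prim (hf : Primrec f) (hg : Primrec g) (hh : Primrec h) (hk : Primrec k) :
    Primrec fun a => UU (f a) (g a) (h a) (k a) := by unfold UU; fun_prop
@[fun_prop] theorem GG_prim (hf : Primrec f) (hg : Primrec g) (hh : Primrec h) :
    Primrec fun a => GG (f a) (g a) (h a) := by unfold GG; fun_prop
@[fun_prop] theorem Act_prim (hf : Primrec f) (hg : Primrec g) :
    Primrec fun a => Act (f a) (g a) := by unfold Act; fun_prop
@[fun_prop] theorem BB_prim (hf : Primrec f) (hg : Primrec g) (hh : Primrec h) :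
    Primrec fun a => BB (f a) (g a) (h a) := by unfold BB; fun_prop
end

theorem InI_iff {i j : ℕ} : InI i j = true ↔ i < (dl j).length ∧ (dl j).getD i 0 = 0 := by
  simp only [InI, Bool.and_eq_true, decide_eq_true_eq, beq_iff_eq]

theorem UU_iff {i j t s : ℕ} : UU i j t s = true ↔ ∀ t' ≤ t, Hlt i (Nat.pair j t') s = true := by
  simp only [UU, List.all_eq_true, List.mem_range, Nat.lt_succ_iff]

theorem GG_iff {i l s : ℕ} :
    GG i l s = true ↔ ∀ w < l, InI i w.unpair.1 = true → Hlt i w s = true := by
  simp only [GG, List.all_eq_true, List.mem_range, Bool.or_eq_true, Bool.not_eq_true']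
  refine forall_congr' fun w => forall_congr' fun _ => ?_
  cases InI i w.unpair.1 <;> simp

theorem Act_iff {j s : ℕ} : Act j s = true ↔ ∀ i < (dl j).length, (dl j).getD i 0 ≠ 0 →
    GG i ((dl j).getD i 0 - 1) s = true ∧ GG i ((dl j).getD i 0) s = false := by
  simp only [Act, List.all_eq_true, List.mem_range, Bool.or_eq_true, beq_iff_eq, Bool.and_eq_true,
    Bool.not_eq_true']
  refine forall_congr' fun w => forall_congr' fun _ => ?_
  tauto

theorem BB_iff {j t s : ℕ} : BB j t s = true ↔ ∃ s' ≤ s, Act j s' = true ∧ t < s' ∧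
    UU (dl j).length j t s' = true ∧ ∀ i, InI i j = true → UU i j (t + 1) s' = true := by
  simp only [BB, List.any_eq_true, List.mem_range, Nat.lt_succ_iff, Bool.and_eq_true,
    decide_eq_true_eq, List.all_eq_true, Bool.or_eq_true, Bool.not_eq_true', and_assoc]
  refine exists_congr fun s' => and_congr_right fun _ => and_congr_right fun _ =>
    and_congr_right fun _ => and_congr_right fun _ => ?_
  constructor
  · intro h i hi
    rcases h i (InI_iff.1 hi).1 with h | h
    · rw [h] at hi; cases hi
    · exact h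
  · intro h i _
    cases hi : InI i j
    · exact Or.inl rfl
    · exact Or.inr (h i hi)

theorem GG_mono {i l s t : ℕ} (hst : s ≤ t) (h : GG i l s = true) : GG i l t = true :=
  GG_iff.2 fun w hw hi => Hlt_mono hst (GG_iff.1 h w hw hi)

theorem BB_mono {j t s s' : ℕ} (hs : s ≤ s') (h : BB j t s = true) : BB j t s' = true := by
  obtain ⟨u, hu, h⟩ := BB_iff.1 h
  exact BB_iff.2 ⟨u, hu.trans hs, h⟩

/-- `t < b j`. -/
def Bt (j t : ℕ) : Prop := ∃ s, BB j t s = true

/-- `b j = ∞`. -/
def Wj (j : ℕ) : Prop := ∀ t, Bt j t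

theorem Bt_iff {j t : ℕ} : Bt j t ↔ ∃ s', Act j s' = true ∧ t < s' ∧
    UU (dl j).length j t s' = true ∧ ∀ i, InI i j = true → UU i j (t + 1) s' = true := by
  constructor
  · rintro ⟨s, hs⟩
    obtain ⟨u, -, h⟩ := BB_iff.1 hs
    exact ⟨u, h⟩
  · rintro ⟨s, hs⟩
    exact ⟨s, BB_iff.2 ⟨s, le_rfl, hs⟩⟩

open Classical in
/-- The true guess. -/
noncomputable def tau (i : ℕ) : ℕ :=
  if h : ∃ w : ℕ, InI i w.unpair.1 = true ∧ ¬ Halts i w then Nat.find h + 1 else 0

theorem GG_eventually {i l : ℕ} (h : ∀ w < l, InI i w.unpair.1 = true → Halts i w) :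
    ∀ᶠ s in atTop, GG i l s = true := by
  have h1 : ∀ w ∈ Finset.range l, ∀ᶠ s in atTop, InI i w.unpair.1 = true → Hlt i w s = true := by
    intro w hw
    by_cases hi : InI i w.unpair.1 = true
    · filter_upwards [(h w (Finset.mem_range.1 hw) hi).eventually] with s hs _ using hs
    · exact Eventually.of_forall fun s h => absurd h hi
  filter_upwards [(Finset.range l).eventually_all.2 h1] with s hs
  exact GG_iff.2 fun w hw => hs w (Finset.mem_range.2 hw)

theorem tau_zero {i : ℕ} (h : tau i = 0) (w : ℕ) (hi : InI i w.unpair.1 = true) : Halts i w := by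
  unfold tau at h
  split_ifs at h with h1
  by_contra hc
  exact h1 ⟨w, hi, hc⟩

theorem tau_lt {i l : ℕ} (h : tau i = 0 ∨ l < tau i) : ∀ᶠ s in atTop, GG i l s = true := by
  classical
  refine GG_eventually fun w hw hi => ?_
  rcases h with h | h
  · exact tau_zero h w hi
  · unfold tau at h
    split_ifs at h with h1
    · by_contra hc
      exact Nat.find_min h1 (by omega : w < Nat.find h1) ⟨hi, hc⟩
    · omega

theorem tau_ge {i l : ℕ} (h0 : tau i ≠ 0) (h : tau i ≤ l) (s : ℕ) : GG i l s = false := by
  classical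
  unfold tau at h0 h
  split_ifs at h0 h with h1
  · have := Nat.find_spec h1
    cases hG : GG i l s
    · rfl
    · exact absurd (halts_iff.2 ⟨s, GG_iff.1 hG _ (by omega) this.1⟩) this.2
  · exact absurd rfl h0

theorem UU_eventually {i j t : ℕ} (h : ∀ t, Halts i (Nat.pair j t)) :
    ∀ᶠ s in atTop, UU i j t s = true := by
  have h1 : ∀ w ∈ Finset.range (t + 1), ∀ᶠ s in atTop, Hlt i (Nat.pair j w) s = true :=
    fun w _ => (h w).eventually
  filter_upwards [(Finset.range (t + 1)).eventually_all.2 h1] with s hs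
  exact UU_iff.2 fun w hw => hs w (Finset.mem_range.2 (by omega))

theorem core1 (e : ℕ) : ∃ j, Wj j ↔ ∀ t, Halts e (Nat.pair j t) := by
  set l := (List.range e).map tau with hl
  have hlen : (dl (encode l)).length = e := by simp [hl]
  have hget : ∀ i < e, (dl (encode l)).getD i 0 = tau i := by
    intro i hi
    simp [hl, List.getD_eq_getElem?_getD, hi]
  refine ⟨encode l, fun h t => ?_, fun h t => ?_⟩
  · obtain ⟨s, -, -, h1, -⟩ := Bt_iff.1 (h t)
    rw [hlen] at h1
    exact halts_iff.2 ⟨s, UU_iff.1 h1 t le_rfl⟩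
  · have h1 : ∀ i ∈ Finset.range e, ∀ᶠ s in atTop, tau i ≠ 0 →
        GG i (tau i - 1) s = true ∧ GG i (tau i) s = false := by
      intro i _
      by_cases h0 : tau i = 0
      · exact Eventually.of_forall fun s h => absurd h0 h
      · filter_upwards [tau_lt (i := i) (l := tau i - 1) (Or.inr (by omega))] with s hs _
        exact ⟨hs, tau_ge h0 le_rfl s⟩
    have h2 : ∀ i ∈ Finset.range e, ∀ᶠ s in atTop, InI i (encode l) = true →
        UU i (encode l) (t + 1) s = true := by
      intro i hi
      by_cases hI : InI i (encode l) = true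
      · have h0 : tau i = 0 := by
          rw [← hget i (Finset.mem_range.1 hi)]; exact (InI_iff.1 hI).2
        filter_upwards [UU_eventually (i := i) (j := encode l) (t := t + 1)
          (fun t => tau_zero h0 _ (by simpa using hI))] with s hs _ using hs
      · exact Eventually.of_forall fun s h => absurd h hI
    obtain ⟨s, hs1, hs2, hs3, hs4⟩ := ((Finset.range e).eventually_all.2 h1).and
      ((eventually_gt_atTop t).and ((UU_eventually (t := t) h).and
        ((Finset.range e).eventually_all.2 h2))) |>.exists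
    refine Bt_iff.2 ⟨s, Act_iff.2 fun i hi => ?_, hs2, by rwa [hlen], fun i hi => ?_⟩
    · rw [hlen] at hi
      rw [hget i hi]
      exact hs1 i (Finset.mem_range.2 hi)
    · exact hs4 i (Finset.mem_range.2 (hlen ▸ (InI_iff.1 hi).1)) hi

/-- The set of `j` with `b j = ∞` is not a projection of a limit computable relation. -/
theorem not_sigma2 {β : Type} [Primcodable β] {q : ℕ → β → Prop}
    (hq : Lim fun x : ℕ × β => q x.1 x.2) : ¬ ∀ j, Wj j ↔ ∃ b, q j b := by
  intro hW
  obtain ⟨g, hg, hlim⟩ := hq
  have hp : Computable fun x : ℕ × ℕ =>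
      (((decode (α := β × ℕ) x.1.unpair.2).map
        fun y => !g (x.1.unpair.1, y.1) (y.2 + x.2)).getD true) := by
    refine Computable.option_getD (Computable.option_map
      (Computable.decode.comp (by fun_prop)) ?_) (Computable.const _)
    exact C.not (hg.comp (g := fun z : (ℕ × ℕ) × β × ℕ =>
      ((z.1.1.unpair.1, z.2.1), z.2.2 + z.1.2)) (by fun_prop))
  obtain ⟨e, he⟩ := exists_index (fun w s => (((decode (α := β × ℕ) w.unpair.2).map
        fun y => !g (w.unpair.1, y.1) (y.2 + s)).getD true)) hp
  obtain ⟨j, hj⟩ := core1 e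
  rw [hW] at hj
  by_cases hex : ∃ b, q j b
  · obtain ⟨b, hb⟩ := hex
    obtain ⟨s0, hs0⟩ := eventually_atTop.1 (hlim (j, b))
    obtain ⟨s, hs⟩ := (he _).1 (hj.1 ⟨b, hb⟩ (encode (b, s0)))
    simp only [Nat.unpair_pair, encodek, Option.map_some, Option.getD_some,
      Bool.not_eq_true'] at hs
    have := (hs0 (s0 + s) (by omega)).2 hb
    rw [this] at hs; cases hs
  · refine hex (hj.2 fun t => (he _).2 ?_)
    simp only [Nat.unpair_pair]
    cases hd : decode (α := β × ℕ) t with
    | none => exact ⟨0, rfl⟩
    | some y =>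
      obtain ⟨s0, hs0⟩ := eventually_atTop.1 (hlim (j, y.1))
      refine ⟨s0, ?_⟩
      simp only [Option.map_some, Option.getD_some, Bool.not_eq_true']
      cases hgv : g (j, y.1) (y.2 + s0)
      · rfl
      · exact absurd ⟨_, (hs0 _ (by omega)).1 hgv⟩ hex

theorem finite_lists (n m : ℕ) : {l : List ℕ | l.length ≤ n ∧ ∀ x ∈ l, x ≤ m}.Finite := by
  induction n with
  | zero =>
    refine (Set.finite_singleton []).subset fun l hl => ?_
    simpa using hl.1
  | succ n ih =>
    refine ((Set.finite_singleton []).union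
      (((Set.finite_Iic m).prod ih).image fun p => p.1 :: p.2)).subset fun l hl => ?_
    cases l with
    | nil => simp
    | cons a l =>
      refine Or.inr ⟨(a, l), ⟨hl.2 a (by simp), ?_, fun x hx => hl.2 x (by simp [hx])⟩, rfl⟩
      simpa using hl.1

def Dead (j s : ℕ) : Bool := (List.range (dl j).length).any fun i =>
  !((dl j).getD i 0 == 0) && GG i ((dl j).getD i 0) s

def Never (τ : List ℕ) (j : ℕ) : Bool := (List.range (dl j).length).any fun i =>
  decide (0 < τ.getD i 0) && decide (τ.getD i 0 < (dl j).getD i 0)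

theorem Dead_iff {j s : ℕ} : Dead j s = true ↔ ∃ i < (dl j).length, (dl j).getD i 0 ≠ 0 ∧
    GG i ((dl j).getD i 0) s = true := by
  simp only [Dead, List.any_eq_true, List.mem_range, Bool.and_eq_true, Bool.not_eq_true',
    beq_eq_false_iff_ne]

theorem Never_iff {τ : List ℕ} {j : ℕ} : Never τ j = true ↔ ∃ i < (dl j).length,
    0 < τ.getD i 0 ∧ τ.getD i 0 < (dl j).getD i 0 := by
  simp only [Never, List.any_eq_true, List.mem_range, Bool.and_eq_true, decide_eq_true_eq]

theorem core2 (i : ℕ) (h0 : ∀ j, Halts i (Nat.pair j 0))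
    (h1 : ∀ j, (∀ t, Halts i (Nat.pair j t)) ∨ ∀ t, Halts i (Nat.pair j t) ↔ Bt j t) :
    ∃ d : ℕ → ℕ, Computable d ∧ ∀ j, (d j = 0 → ∀ t, Halts i (Nat.pair j t)) ∧
      ∀ v, d j = v + 1 → ¬ Bt j v := by
  classical
  have hgood : ∀ j, InI i j = true → ∀ t, Halts i (Nat.pair j t) := by
    intro j hj
    rcases h1 j with h | h
    · exact h
    · intro t
      induction t with
      | zero => exact h0 j
      | succ t ih =>
        obtain ⟨s, -, -, -, hs⟩ := Bt_iff.1 ((h t).1 ih)
        exact halts_iff.2 ⟨s, UU_iff.1 (hs i hj) _ le_rfl⟩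
  set τ := (List.range i).map tau with hτ
  have hτget : ∀ i' < i, τ.getD i' 0 = tau i' := by
    intro i' hi'
    simp [hτ, List.getD_eq_getElem?_getD, hi']
  have hτget' : ∀ i', 0 < τ.getD i' 0 → τ.getD i' 0 = tau i' := by
    intro i' hi'
    by_cases h : i' < i
    · exact hτget i' h
    · simp [hτ, List.getD_eq_getElem?_getD, h] at hi'
  -- the exceptional set is bounded
  obtain ⟨N, hN⟩ : ∃ N, ∀ j, N ≤ j → InI i j = true ∨ Never τ j = true ∨ ∃ s, Dead j s = true := by
    obtain ⟨N, hN⟩ := ((finite_lists i (∑ k ∈ Finset.range i, tau k)).image encode).bddAbove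
    refine ⟨N + 1, fun j hj => ?_⟩
    by_contra hc
    push Not at hc
    obtain ⟨hc1, hc2, hc3⟩ := hc
    have hdead : ∀ k < (dl j).length, (dl j).getD k 0 ≠ 0 →
        ¬ ∀ᶠ s in atTop, GG k ((dl j).getD k 0) s = true := by
      intro k hk hk0 hev
      obtain ⟨s, hs⟩ := hev.exists
      exact hc3 s (Dead_iff.2 ⟨k, hk, hk0, hs⟩)
    have hlen : (dl j).length ≤ i := by
      by_contra hl
      push Not at hl
      refine hdead i hl (fun h => hc1 (InI_iff.2 ⟨hl, h⟩)) (GG_eventually fun w _ hw => ?_)
      simpa using hgood _ hw w.unpair.2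
    have : j ≤ N := by
      rw [← encode_dl j]
      refine hN ⟨dl j, ⟨hlen, fun x hx => ?_⟩, rfl⟩
      obtain ⟨k, hk, rfl⟩ := List.getElem_of_mem hx
      have hk' : (dl j).getD k 0 = (dl j)[k] := by simp [List.getD_eq_getElem?_getD, hk]
      have h2 : tau k ≤ ∑ k ∈ Finset.range i, tau k :=
        Finset.single_le_sum (f := tau) (fun _ _ => Nat.zero_le _) (Finset.mem_range.2 (by omega))
      by_contra hgt
      push Not at hgt
      by_cases ht : tau k = 0
      · exact hdead k hk (by omega) (tau_lt (Or.inl ht))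
      · exact hc2 (Never_iff.2 ⟨k, hk, by rw [hτget k (by omega)]; omega,
          by rw [hτget k (by omega)]; omega⟩)
    omega
  have hsearch := C.search
    (p := fun j s => decide (j < N) || InI i j || Never τ j || Dead j s)
    (C.ofPrim (by unfold Never Dead; fun_prop)) (fun j => by
      by_cases hj : j < N
      · exact ⟨0, by simp [hj]⟩
      · rcases hN j (by omega) with h | h | ⟨s, h⟩
        · exact ⟨0, by simp [h]⟩
        · exact ⟨0, by simp [h]⟩
        · exact ⟨s, by simp [h]⟩)
  obtain ⟨σ, hσc, hσ⟩ := hsearch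
  set tab : ℕ → ℕ := fun j => if h : ∃ v, ¬ Bt j v then h.choose + 1 else 0 with htab
  refine ⟨fun j => if j < N then ((List.range N).map tab).getD j 0
    else bif InI i j then 0 else σ j + 1, ?_, fun j => ?_⟩
  · have : Computable fun j => InI i j := C.ofPrim (by fun_prop)
    fun_prop
  · by_cases hj : j < N
    · have e : ((List.range N).map tab).getD j 0 = tab j := by
        simp [List.getD_eq_getElem?_getD, hj]
      simp only [hj, if_true, e]
      by_cases h : ∃ v, ¬ Bt j v
      · have e2 : tab j = h.choose + 1 := by simp only [htab]; rw [dif_pos h]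
        rw [e2]
        refine ⟨fun h => by omega, fun v hv => ?_⟩
        have := h.choose_spec
        rwa [show h.choose = v by omega] at this
      · have e2 : tab j = 0 := by simp only [htab]; rw [dif_neg h]
        rw [e2]
        push Not at h
        refine ⟨fun _ t => ?_, fun v hv => by omega⟩
        rcases h1 j with h2 | h2
        · exact h2 t
        · exact (h2 t).2 (h t)
    · simp only [hj, if_false]
      cases hI : InI i j
      · refine ⟨fun h => by simp at h, fun v hv hB => ?_⟩
        obtain rfl : σ j = v := by simpa using hv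
        obtain ⟨s, hA, hlt, -⟩ := Bt_iff.1 hB
        have h2 := hσ j
        simp only [hj, hI, decide_false, Bool.or_self, Bool.false_or, Bool.or_eq_true] at h2
        rcases h2 with h2 | h2
        · obtain ⟨k, hk, h3, h4⟩ := Never_iff.1 h2
          have h5 := (Act_iff.1 hA k hk (by omega)).1
          have h6 := hτget' k h3
          rw [h6] at h3 h4
          rw [tau_ge (by omega) (by omega)] at h5
          cases h5
        · obtain ⟨k, hk, h3, h4⟩ := Dead_iff.1 h2
          have h5 := (Act_iff.1 hA k hk h3).2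
          rw [GG_mono hlt.le h4] at h5
          cases h5
      · exact ⟨fun _ => hgood j hI, fun v hv => by simp at hv⟩

end Pool.Agent.MP_c1eef4_lc.H62
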