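import Mathlib

/-! Definitions used in the statement. -/

namespace Pool.Agent.MP_c1eef4_lc.H62

/-- The relational language with one relation symbol `R n k` of arity `n` for all `n, k : ℕ`. -/
def L : FirstOrder.Language.{0, 0} := ⟨fun _ => Empty, fun _ => ℕ⟩

/-- Number of a term: the index of the variable (the language has no function symbols). -/
def termCode {n : ℕ} : L.Term (Empty ⊕ Fin n) → ℕ
  | .var (Sum.inl e) => e.elim
  | .var (Sum.inr i) => i.val
  | .func f _ => Empty.elim f

/-- Goedel number of a formula. -/
def code : {n : ℕ} → L.BoundedFormula Empty n → ℕ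
  | _, .falsum => Nat.pair 0 0
  | _, .equal t u => Nat.pair 1 (Nat.pair (termCode t) (termCode u))
  | _, .rel R ts =>
      Nat.pair 2 (Nat.pair R (Encodable.encode (List.ofFn fun i => termCode (ts i))))
  | _, .imp φ ψ => Nat.pair 3 (Nat.pair (code φ) (code ψ))
  | _, .all φ => Nat.pair 4 (code φ)

theorem termCode_injective {n : ℕ} : Function.Injective (termCode (n := n)) := by
  rintro ((e | i) | f) u h
  · exact e.elim
  · rcases u with ((e | j) | g)
    · exact e.elim
    · rw [Fin.ext h]
    · exact Empty.elim g
  · exact Empty.elim f

/-- The numbering of formulas is injective. -/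
theorem code_injective {n : ℕ} : Function.Injective (code (n := n)) := by
  intro φ
  induction φ with
  | falsum => intro ψ h; cases ψ <;> simp_all [code]
  | equal t u =>
    intro ψ h
    cases ψ <;> simp only [code, Nat.pair_eq_pair] at h <;> try omega
    rw [termCode_injective h.2.1, termCode_injective h.2.2]
  | rel R ts =>
    intro ψ h
    cases ψ <;> simp only [code, Nat.pair_eq_pair] at h <;> try omega
    obtain ⟨-, h1, h2⟩ := h
    have h3 := Encodable.encode_injective h2
    have h4 := congrArg List.length h3
    simp only [List.length_ofFn] at h4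
    subst h4
    have h5 := List.ofFn_injective h3
    obtain rfl : R = _ := h1
    rw [funext fun i => termCode_injective (congrFun h5 i)]
  | imp φ₁ φ₂ ih1 ih2 =>
    intro ψ h
    cases ψ <;> simp only [code, Nat.pair_eq_pair] at h <;> try omega
    rw [ih1 h.2.1, ih2 h.2.2]
  | all φ ih =>
    intro ψ h
    cases ψ <;> simp only [code, Nat.pair_eq_pair] at h <;> try omega
    rw [ih h.2]

open Classical in
/-- Characteristic function of a set of naturals. -/
noncomputable def chi (S : Set ℕ) : ℕ →. ℕ := fun n => Part.some (if n ∈ S then 1 else 0)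

/-- The halting set. -/
def K : Set ℕ := {e | ((Denumerable.ofNat Nat.Partrec.Code e).eval e).Dom}

/-- A computable structure: computable universe `U ⊆ ℕ` and computable atomic diagram. -/
def IsComputableStr (U : Set ℕ) [L.Structure U] : Prop :=
  ComputablePred (fun x => x ∈ U) ∧
  ComputablePred (fun p : ℕ × List ℕ => ∃ (n : ℕ) (v : Fin n → U),
    List.ofFn (fun i => (v i : ℕ)) = p.2 ∧ FirstOrder.Language.Structure.RelMap (L := L) (n := n) p.1 v)

end Pool.Agent.MP_c1eef4_lc.H62
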