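import Pool.Agent.MP_c1eef4_lc.H62.Core

/-! Generic colourings of finite sets of naturals. -/

namespace Pool.Agent.MP_c1eef4_lc.H62

open Filter

/-- Column and level of an arity. -/
def colm (k : ℕ) : ℕ := (k - 1).unpair.1
def levl (k : ℕ) : ℕ := (k - 1).unpair.2
def ar (j t : ℕ) : ℕ := Nat.pair j t + 1

@[simp] theorem colm_ar (j t : ℕ) : colm (ar j t) = j := by simp [colm, ar]
@[simp] theorem levl_ar (j t : ℕ) : levl (ar j t) = t := by simp [levl, ar]
theorem ar_pos (j t : ℕ) : 1 ≤ ar j t := by simp [ar]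

/-- Colour `2` is allowed at arity `k`. -/
def Al (k : ℕ) : Prop := levl k = 0 ∨ Bt (colm k) (levl k - 1)

def OK (k x : ℕ) : Prop := x = 0 ∨ (1 ≤ k ∧ (x = 1 ∨ (x = 2 ∧ Al k)))

structure GenOn (U : Set ℕ) (c : Finset ℕ → ℕ) : Prop where
  ok : ∀ S : Finset ℕ, ↑S ⊆ U → OK S.card (c S)
  ext : ∀ F : Finset ℕ, ↑F ⊆ U → ∀ d : Finset ℕ → ℕ, (∀ S ⊆ F, OK (S.card + 1) (d S)) →
    ∃ m ∈ U, m ∉ F ∧ ∀ S ⊆ F, c (insert m S) = d S

/-- The basic relation induced by a colouring. -/
def Er (c : Finset ℕ → ℕ) (x y : List ℕ) : Prop :=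
  x.Nodup ∧ y.Nodup ∧ c x.toFinset ≠ 0 ∧ c x.toFinset = c y.toFinset ∧
    colm x.length = colm y.length

structure Pat (U V : Set ℕ) (c c' : Finset ℕ → ℕ) (P : Finset (ℕ × ℕ)) : Prop where
  mem : ∀ p ∈ P, p.1 ∈ U ∧ p.2 ∈ V
  eq : ∀ p ∈ P, ∀ q ∈ P, p.1 = q.1 ↔ p.2 = q.2
  col : ∀ S ⊆ P, c (S.image Prod.fst) = c' (S.image Prod.snd)

variable {U V : Set ℕ} {c c' : Finset ℕ → ℕ} {P : Finset (ℕ × ℕ)}

theorem Pat.swap (h : Pat U V c c' P) : Pat V U c' c (P.image Prod.swap) where
  mem p hp := by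
    obtain ⟨q, hq, rfl⟩ := Finset.mem_image.1 hp
    exact (h.mem q hq).symm
  eq p hp q hq := by
    obtain ⟨p', hp', rfl⟩ := Finset.mem_image.1 hp
    obtain ⟨q', hq', rfl⟩ := Finset.mem_image.1 hq
    exact (h.eq p' hp' q' hq').symm
  col S hS := by
    obtain ⟨S', hS', rfl⟩ := Finset.subset_image_iff.1 hS
    rw [Finset.image_image, Finset.image_image]
    exact (h.col S' hS').symm

theorem Pat.mono (h : Pat U V c c' P) {Q : Finset (ℕ × ℕ)} (hQ : Q ⊆ P) : Pat U V c c' Q :=
  ⟨fun p hp => h.mem p (hQ hp), fun p hp q hq => h.eq p (hQ hp) q (hQ hq),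
    fun S hS => h.col S (hS.trans hQ)⟩

theorem Pat.card_fst (h : Pat U V c c' P) {S : Finset (ℕ × ℕ)} (hS : S ⊆ P) :
    (S.image Prod.fst).card = S.card :=
  Finset.card_image_of_injOn fun p hp q hq e =>
    Prod.ext e ((h.eq p (hS hp) q (hS hq)).1 e)

theorem Pat.card_snd (h : Pat U V c c' P) {S : Finset (ℕ × ℕ)} (hS : S ⊆ P) :
    (S.image Prod.snd).card = S.card :=
  Finset.card_image_of_injOn fun p hp q hq e =>
    Prod.ext ((h.eq p (hS hp) q (hS hq)).2 e) e

theorem Pat.forth (hc : GenOn U c) (hc' : GenOn V c') (h : Pat U V c c' P) {a : ℕ} (ha : a ∈ U) :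
    ∃ b, Pat U V c c' (insert (a, b) P) := by
  classical
  by_cases hP : ∃ b, (a, b) ∈ P
  · obtain ⟨b, hb⟩ := hP
    exact ⟨b, by rwa [Finset.insert_eq_of_mem hb]⟩
  have hna : ∀ p ∈ P, p.1 ≠ a := fun p hp e => hP ⟨p.2, by rw [← e]; exact hp⟩
  obtain ⟨m, hmV, hmF, hm⟩ := hc'.ext (P.image Prod.snd)
    (fun x hx => by
      obtain ⟨q, hq, rfl⟩ := Finset.mem_image.1 (Finset.mem_coe.1 hx)
      exact (h.mem q hq).2)
    (fun S => c (insert a ((P.filter fun p => p.2 ∈ S).image Prod.fst)))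
    (fun S hS => by
      have h1 : ((P.filter fun p => p.2 ∈ S).image Prod.snd) = S := by
        ext y
        simp only [Finset.mem_image, Finset.mem_filter]
        constructor
        · rintro ⟨p, ⟨-, hp⟩, rfl⟩; exact hp
        · intro hy
          obtain ⟨q, hq, rfl⟩ := Finset.mem_image.1 (hS hy)
          exact ⟨q, ⟨hq, hy⟩, rfl⟩
      have h2 : (insert a ((P.filter fun p => p.2 ∈ S).image Prod.fst)).card = S.card + 1 := by
        rw [Finset.card_insert_of_notMem, h.card_fst (Finset.filter_subset _ _),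
          ← h.card_snd (Finset.filter_subset _ _), h1]
        intro hx
        obtain ⟨q, hq, e⟩ := Finset.mem_image.1 hx
        exact hna q (Finset.mem_filter.1 hq).1 e
      rw [← h2]
      refine hc.ok _ fun x hx => ?_
      rcases Finset.mem_insert.1 (Finset.mem_coe.1 hx) with rfl | hx
      · exact ha
      · obtain ⟨q, hq, rfl⟩ := Finset.mem_image.1 hx
        exact (h.mem q (Finset.mem_filter.1 hq).1).1)
  have hnm : ∀ p ∈ P, p.2 ≠ m := fun p hp e => hmF (Finset.mem_image.2 ⟨p, hp, e⟩)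
  refine ⟨m, fun p hp => ?_, fun p hp q hq => ?_, fun S hS => ?_⟩
  · rcases Finset.mem_insert.1 hp with rfl | hp
    · exact ⟨ha, hmV⟩
    · exact h.mem p hp
  · rcases Finset.mem_insert.1 hp with rfl | hp <;> rcases Finset.mem_insert.1 hq with rfl | hq
    · simp
    · exact iff_of_false (hna q hq).symm (hnm q hq).symm
    · exact iff_of_false (hna p hp) (hnm p hp)
    · exact h.eq p hp q hq
  · by_cases hS' : (a, m) ∈ S
    · have hS0 : S.erase (a, m) ⊆ P := Finset.subset_insert_iff.1 hS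
      rw [← Finset.insert_erase hS', Finset.image_insert, Finset.image_insert,
        hm _ (Finset.image_subset_image hS0)]
      congr 3
      ext p
      simp only [Finset.mem_filter, Finset.mem_image]
      constructor
      · intro hp; exact ⟨hS0 hp, p, hp, rfl⟩
      · rintro ⟨hp, q, hq, e⟩
        rwa [← Prod.ext ((h.eq q (hS0 hq) p hp).2 e) e]
    · exact h.col S ((Finset.subset_insert_iff_of_notMem hS').1 hS)

theorem Pat.back (hc : GenOn U c) (hc' : GenOn V c') (h : Pat U V c c' P) {b : ℕ} (hb : b ∈ V) :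
    ∃ a, Pat U V c c' (insert (a, b) P) := by
  obtain ⟨a, ha⟩ := h.swap.forth hc' hc hb
  refine ⟨a, ?_⟩
  have := ha.swap
  rwa [Finset.image_insert, Finset.image_image, Prod.swap_swap_eq, Finset.image_id] at this

theorem Pat.empty (hc : GenOn U c) (hc' : GenOn V c') : Pat U V c c' ∅ where
  mem := by simp
  eq := by simp
  col S hS := by
    obtain rfl := Finset.subset_empty.1 hS
    have h1 := hc.ok ∅ (by simp)
    have h2 := hc'.ok ∅ (by simp)
    simp only [OK, Finset.card_empty, Nat.le_zero, one_ne_zero, false_and, or_false] at h1 h2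
    simp [h1, h2]

theorem Pat.nodup (h : Pat U V c c' P) {x : List (ℕ × ℕ)} (hx : ∀ p ∈ x, p ∈ P) :
    (x.map Prod.fst).Nodup ↔ (x.map Prod.snd).Nodup := by
  simp only [List.Nodup, List.pairwise_map]
  constructor
  · exact fun h1 => h1.imp_of_mem fun hp hq e e2 => e ((h.eq _ (hx _ hp) _ (hx _ hq)).2 e2)
  · exact fun h1 => h1.imp_of_mem fun hp hq e e2 => e ((h.eq _ (hx _ hp) _ (hx _ hq)).1 e2)

theorem toFinset_map {α : Type} [DecidableEq α] (x : List α) (f : α → ℕ) :
    (x.map f).toFinset = x.toFinset.image f := by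
  ext a; simp

theorem Pat.colList (h : Pat U V c c' P) {x : List (ℕ × ℕ)} (hx : ∀ p ∈ x, p ∈ P) :
    c (x.map Prod.fst).toFinset = c' (x.map Prod.snd).toFinset := by
  rw [toFinset_map, toFinset_map]
  exact h.col _ fun p hp => hx p (List.mem_toFinset.1 hp)

theorem Pat.er (h : Pat U V c c' P) {x y : List (ℕ × ℕ)} (hx : ∀ p ∈ x, p ∈ P)
    (hy : ∀ p ∈ y, p ∈ P) :
    Er c (x.map Prod.fst) (y.map Prod.fst) ↔ Er c' (x.map Prod.snd) (y.map Prod.snd) := by
  simp only [Er, h.nodup hx, h.nodup hy, h.colList hx, h.colList hy, List.length_map]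

theorem GenOn.exists_card (hc : GenOn U c) (k : ℕ) : ∃ F : Finset ℕ, ↑F ⊆ U ∧ F.card = k := by
  induction k with
  | zero => exact ⟨∅, by simp, rfl⟩
  | succ k ih =>
    obtain ⟨F, hF, rfl⟩ := ih
    obtain ⟨m, hm, hmF, -⟩ := hc.ext F hF (fun _ => 0) fun _ _ => Or.inl rfl
    exact ⟨insert m F, by simp [Set.insert_subset_iff, hm, hF], Finset.card_insert_of_notMem hmF⟩

theorem GenOn.exists_col (hc : GenOn U c) {k x : ℕ} (hk : 1 ≤ k) (hx : OK k x) :
    ∃ l : List ℕ, (∀ a ∈ l, a ∈ U) ∧ l.Nodup ∧ l.length = k ∧ c l.toFinset = x := by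
  obtain ⟨F, hF, hk'⟩ := hc.exists_card (k - 1)
  obtain ⟨m, hm, hmF, h⟩ := hc.ext F hF (fun S => if S = F then x else 0) fun S _ => by
    split_ifs with h
    · rw [h, hk', Nat.sub_add_cancel hk]; exact hx
    · exact Or.inl rfl
  refine ⟨(insert m F).toList, fun a ha => ?_, Finset.nodup_toList _, ?_, ?_⟩
  · rcases Finset.mem_insert.1 (Finset.mem_toList.1 ha) with rfl | ha
    · exact hm
    · exact hF ha
  · rw [Finset.length_toList, Finset.card_insert_of_notMem hmF]; omega
  · rw [Finset.toList_toFinset, h F le_rfl, if_pos rfl]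

/-- Exchange of the colours `1` and `2`. -/
def flip (x : ℕ) : ℕ := if x = 1 then 2 else if x = 2 then 1 else x

theorem flip_flip (x : ℕ) : flip (flip x) = x := by unfold flip; split_ifs <;> omega
theorem flip_inj {x y : ℕ} : flip x = flip y ↔ x = y :=
  ⟨fun h => by rw [← flip_flip x, h, flip_flip], fun h => by rw [h]⟩
theorem flip_eq_zero {x : ℕ} : flip x = 0 ↔ x = 0 := by
  unfold flip; split_ifs <;> simp [*]

theorem OK.flip {k x : ℕ} (hW : Wj (colm k)) (h : OK k x) : OK k (flip x) := by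
  have hAl : Al k := Or.inr (hW _)
  rcases h with rfl | ⟨hk, rfl | ⟨rfl, -⟩⟩
  · exact Or.inl rfl
  · exact Or.inr ⟨hk, Or.inr ⟨rfl, hAl⟩⟩
  · exact Or.inr ⟨hk, Or.inl rfl⟩

open Classical in
/-- Swap the colours in the columns selected by `π`. -/
noncomputable def swc (π : ℕ → Prop) (c : Finset ℕ → ℕ) (S : Finset ℕ) : ℕ :=
  if π (colm S.card) then flip (c S) else c S

theorem GenOn.swc (hc : GenOn U c) {π : ℕ → Prop} (hπ : ∀ j, π j → Wj j) :
    GenOn U (swc π c) where
  ok S hS := by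
    unfold H62.swc
    split_ifs with h
    · exact (hc.ok S hS).flip (hπ _ h)
    · exact hc.ok S hS
  ext F hF d hd := by
    classical
    obtain ⟨m, hm, hmF, h⟩ := hc.ext F hF
      (fun S => if π (colm (S.card + 1)) then flip (d S) else d S) fun S hS => by
        split_ifs with h
        · exact (hd S hS).flip (hπ _ h)
        · exact hd S hS
    refine ⟨m, hm, hmF, fun S hS => ?_⟩
    unfold H62.swc
    rw [h S hS, Finset.card_insert_of_notMem fun hx => hmF (hS hx)]
    split_ifs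
    · exact flip_flip _
    · rfl

theorem Er_swc (π : ℕ → Prop) (c : Finset ℕ → ℕ) (x y : List ℕ) :
    Er (swc π c) x y ↔ Er c x y := by
  unfold Er
  refine and_congr_right fun hx => and_congr_right fun hy => ?_
  unfold swc
  rw [List.toFinset_card_of_nodup hx, List.toFinset_card_of_nodup hy]
  constructor
  · rintro ⟨h1, h2, h3⟩
    rw [← h3] at h2
    split_ifs at h1 h2
    · exact ⟨fun h => h1 (flip_eq_zero.2 h), flip_inj.1 h2, h3⟩
    · exact ⟨h1, h2, h3⟩
  · rintro ⟨h1, h2, h3⟩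
    rw [← h3]
    split_ifs
    · exact ⟨fun h => h1 (flip_eq_zero.1 h), flip_inj.2 h2, rfl⟩
    · exact ⟨h1, h2, rfl⟩

theorem GenOn.comap (hc : GenOn Set.univ c) {g : ℕ → ℕ} (hg : Set.BijOn g U Set.univ) :
    GenOn U fun S => c (S.image g) where
  ok S hS := by
    rw [← Finset.card_image_of_injOn (hg.injOn.mono hS)]
    exact hc.ok _ (Set.subset_univ _)
  ext F hF d hd := by
    have key : ∀ S ⊆ F, F.filter (fun a => g a ∈ S.image g) = S := by
      intro S hS
      ext a
      simp only [Finset.mem_filter, Finset.mem_image]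
      constructor
      · rintro ⟨ha, b, hb, e⟩
        rwa [← hg.injOn (hF (hS hb)) (hF ha) e]
      · intro ha; exact ⟨hS ha, a, ha, rfl⟩
    obtain ⟨m, -, hmF, h⟩ := hc.ext (F.image g) (Set.subset_univ _)
      (fun S => d (F.filter fun a => g a ∈ S)) fun S hS => by
        obtain ⟨S', hS', rfl⟩ := Finset.subset_image_iff.1 hS
        rw [key S' hS', Finset.card_image_of_injOn (hg.injOn.mono fun a ha => hF (hS' ha))]
        exact hd S' hS'
    obtain ⟨m', hm', rfl⟩ := hg.surjOn (Set.mem_univ m)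
    refine ⟨m', hm', fun hx => hmF (Finset.mem_image_of_mem _ hx), fun S hS => ?_⟩
    rw [Finset.image_insert, h _ (Finset.image_subset_image hS), key S hS]

end Pool.Agent.MP_c1eef4_lc.H62
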