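import Pool.Agent.MP_c1eef4_lc.H62.Prim
import Pool.Agent.MP_c1eef4_lc.H62.Defs

/-! The limit lemma for the halting set. -/

namespace Pool.Agent.MP_c1eef4_lc.H62

open Encodable Denumerable Filter Nat.Partrec

/-- Bounded halting test. -/
def Hlt (i w s : ℕ) : Bool := (Code.evaln s (ofNat Code i) w).isSome

@[fun_prop] theorem Hlt_prim {α : Type} [Primcodable α] {f g h : α → ℕ} (hf : Primrec f)
    (hg : Primrec g) (hh : Primrec h) : Primrec fun a => Hlt (f a) (g a) (h a) := by
  unfold Hlt; fun_prop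

theorem Hlt_mono {i w s t : ℕ} (hst : s ≤ t) (h : Hlt i w s = true) : Hlt i w t = true := by
  unfold Hlt at h ⊢
  obtain ⟨x, hx⟩ := Option.isSome_iff_exists.1 h
  exact Option.isSome_iff_exists.2 ⟨x, Code.evaln_mono hst hx⟩

/-- Halting of machine `i` on input `w`. -/
def Halts (i w : ℕ) : Prop := ((ofNat Code i).eval w).Dom

theorem halts_iff {i w : ℕ} : Halts i w ↔ ∃ s, Hlt i w s = true := by
  unfold Halts Hlt
  rw [Part.dom_iff_mem]
  constructor
  · rintro ⟨x, hx⟩
    obtain ⟨k, hk⟩ := Code.evaln_complete.1 hx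
    exact ⟨k, Option.isSome_iff_exists.2 ⟨x, hk⟩⟩
  · rintro ⟨s, hs⟩
    obtain ⟨x, hx⟩ := Option.isSome_iff_exists.1 hs
    exact ⟨x, Code.evaln_sound hx⟩

theorem Halts.eventually {i w : ℕ} (h : Halts i w) : ∀ᶠ s in atTop, Hlt i w s = true := by
  obtain ⟨s, hs⟩ := halts_iff.1 h
  exact eventually_atTop.2 ⟨s, fun t ht => Hlt_mono ht hs⟩

/-- Every existential predicate with computable matrix is the domain of some machine. -/
theorem exists_index {β : Type} [Primcodable β] (p : ℕ → β → Bool)
    (hp : Computable fun x : ℕ × β => p x.1 x.2) :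
    ∃ i, ∀ w, Halts i w ↔ ∃ b, p w b = true := by
  have h1 : Computable₂ fun (a : ℕ) (n : ℕ) =>
      ((decode (α := β) n).bind fun b => bif p a b then some 0 else none : Option ℕ) := by
    refine Computable.option_bind (Computable.decode.comp Computable.snd) ?_
    have : Computable fun q : (ℕ × ℕ) × β => p q.1.1 q.2 :=
      hp.comp (g := fun q : (ℕ × ℕ) × β => (q.1.1, q.2)) (by fun_prop)
    exact Computable.cond this (Computable.const _) (Computable.const _)
  obtain ⟨c, hc⟩ := Code.exists_code.1 (Partrec.nat_iff.1 (Partrec.rfindOpt h1))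
  refine ⟨encode c, fun w => ?_⟩
  unfold Halts
  rw [ofNat_encode, hc, Nat.rfindOpt_dom]
  constructor
  · rintro ⟨n, x, hx⟩
    simp only [Option.mem_def, Option.bind_eq_some_iff] at hx
    obtain ⟨b, -, hb⟩ := hx
    refine ⟨b, ?_⟩
    cases h : p w b
    · simp [h] at hb
    · rfl
  · rintro ⟨b, hb⟩
    exact ⟨encode b, 0, by simp [hb]⟩

/-- The halting set is complete for existential predicates. -/
theorem exists_reduction (p : ℕ → ℕ → Bool) (hp : Computable fun x : ℕ × ℕ => p x.1 x.2) :
    ∃ r : ℕ → ℕ, Computable r ∧ ∀ w, r w ∈ K ↔ ∃ b, p w b = true := by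
  obtain ⟨i, hi⟩ := exists_index (fun w b => p w.unpair.1 b)
    (hp.comp (g := fun q : ℕ × ℕ => (q.1.unpair.1, q.2)) (by fun_prop))
  refine ⟨fun w => encode (Code.curry (ofNat Code i) w), ?_, fun w => ?_⟩
  · exact (Primrec.encode.comp (Code.primrec₂_curry.comp (Primrec.const _) Primrec.id)).to_comp
  · have := hi (Nat.pair w (encode (Code.curry (ofNat Code i) w)))
    simp only [Nat.unpair_pair] at this
    rw [← this]
    simp only [K, Set.mem_ofPred_eq, ofNat_encode, Code.eval_curry, Halts]

/-- Limit computable predicates. -/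
def Lim {α : Type} [Primcodable α] (p : α → Prop) : Prop :=
  ∃ g : α → ℕ → Bool, Computable (fun x : α × ℕ => g x.1 x.2) ∧
    ∀ a, ∀ᶠ s in atTop, (g a s = true ↔ p a)

theorem lim_to_turing {S : Set ℕ} (h : Lim fun x => x ∈ S) : TuringReducible (chi S) (chi K) := by
  classical
  obtain ⟨g, hg, hlim⟩ := h
  have hg1 : Computable fun x : ℕ × ℕ => g x.1.unpair.1 (x.1.unpair.2 + x.2) :=
    hg.comp (g := fun x : ℕ × ℕ => (x.1.unpair.1, x.1.unpair.2 + x.2)) (by fun_prop)
  have hg2 : Computable fun x : ℕ => g x.unpair.1 x.unpair.2 :=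
    hg.comp (g := fun x : ℕ => (x.unpair.1, x.unpair.2)) (by fun_prop)
  obtain ⟨r, hr, hrK⟩ := exists_reduction
    (fun w b => !(g w.unpair.1 (w.unpair.2 + b) == g w.unpair.1 w.unpair.2))
    (C.not (C.beq hg1 (hg2.comp Computable.fst)))
  have F1 : Nat.RecursiveIn {chi K} fun n => (Part.some (r n)) >>= chi K :=
    .comp (.oracle _ rfl) (Nat.Partrec.recursiveIn (Partrec.nat_iff.1 hr))
  have F2 := F1.rfind
  have F3 := Nat.RecursiveIn.pair (Nat.Partrec.recursiveIn (O := {chi K}) Nat.Partrec.some) F2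
  have hg3 : Computable fun x : ℕ => bif g x.unpair.1 x.unpair.2 then 1 else 0 :=
    C.cond hg2 (C.const _) (C.const _)
  have F4 := Nat.RecursiveIn.comp (Nat.Partrec.recursiveIn (Partrec.nat_iff.1 hg3)) F3
  rw [TuringReducible, RecursiveIn.iff_nat]
  refine F4.of_eq fun a => ?_
  obtain ⟨s0, hs0⟩ := eventually_atTop.1 (hlim a)
  have hex : ∃ s, r (Nat.pair a s) ∉ K := by
    refine ⟨s0, fun hK => ?_⟩
    obtain ⟨b, hb⟩ := (hrK _).1 hK
    simp only [Nat.unpair_pair, Bool.not_eq_true', beq_eq_false_iff_ne] at hb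
    apply hb
    rw [Bool.eq_iff_iff, hs0 _ (by omega), hs0 _ le_rfl]
  have hspec := Nat.find_spec hex
  have hmem : Nat.find hex ∈ Nat.rfind fun n =>
      (fun m => decide (m = 0)) <$> ((Part.some (r (Nat.pair a n))) >>= chi K) := by
    rw [Nat.mem_rfind]
    refine ⟨by simp [chi, hspec], fun {m} hm => ?_⟩
    have := Nat.find_min hex hm
    simp only [not_not] at this
    simp [chi, this]
  have hval : (g a (Nat.find hex) = true ↔ a ∈ S) := by
    rw [hrK] at hspec
    simp only [Nat.unpair_pair, Bool.not_eq_true', beq_eq_false_iff_ne, not_exists, not_not]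
      at hspec
    rw [← hspec s0]
    exact hs0 _ (by omega)
  rw [Part.eq_some_iff.2 hmem]
  simp only [chi, Seq.seq, Part.map_eq_map, Part.map_some, Part.bind_eq_bind, Part.bind_some,
    PFun.coe_val, Nat.unpair_pair]
  by_cases ha : a ∈ S
  · simp [ha, hval.2 ha]
  · have : g a (Nat.find hex) = false := by
      cases h : g a (Nat.find hex)
      · rfl
      · exact absurd (hval.1 h) ha
    simp [ha, this]

attribute [local irreducible] Primrec Computable

theorem approx_of_recursiveIn {f : ℕ →. ℕ} (hf : Nat.RecursiveIn {chi K} f) :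
    ∃ g : ℕ → ℕ → ℕ, Primrec (fun x : ℕ × ℕ => g x.1 x.2) ∧
      ∀ x y, y ∈ f x → ∀ᶠ s in atTop, g x s = y := by
  classical
  induction hf with
  | zero => exact ⟨fun _ _ => 0, by fun_prop, fun x y hy => by
      have : y = 0 := Part.mem_some_iff.1 hy
      simp [this]⟩
  | succ => exact ⟨fun x _ => x + 1, by fun_prop, fun x y hy => by
      have : y = x + 1 := by simpa using hy
      simp [this]⟩
  | left => exact ⟨fun x _ => x.unpair.1, by fun_prop, fun x y hy => by
      have : y = x.unpair.1 := by simpa using hy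
      simp [this]⟩
  | right => exact ⟨fun x _ => x.unpair.2, by fun_prop, fun x y hy => by
      have : y = x.unpair.2 := by simpa using hy
      simp [this]⟩
  | oracle g hg =>
    obtain rfl : g = chi K := hg
    refine ⟨fun x s => bif Hlt x x s then 1 else 0, by fun_prop, fun x y hy => ?_⟩
    simp only [chi, Part.mem_some_iff] at hy
    by_cases hx : x ∈ K
    · have hx' : Halts x x := hx
      filter_upwards [hx'.eventually] with s hs
      simp [hs, hy, hx]
    · refine Eventually.of_forall fun s => ?_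
      have : Hlt x x s = false := by
        cases h : Hlt x x s
        · rfl
        · exact absurd (halts_iff.2 ⟨s, h⟩) hx
      simp [this, hy, hx]
  | pair _ _ ih1 ih2 =>
    obtain ⟨g1, hg1, h1⟩ := ih1
    obtain ⟨g2, hg2, h2⟩ := ih2
    refine ⟨fun x s => Nat.pair (g1 x s) (g2 x s), by fun_prop, fun x y hy => ?_⟩
    simp only [Seq.seq, Part.map_eq_map, Part.mem_bind_iff, Part.mem_map_iff] at hy
    obtain ⟨_, ⟨a, ha, rfl⟩, b, hb, rfl⟩ := hy
    filter_upwards [h1 x a ha, h2 x b hb] with s e1 e2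
    rw [e1, e2]
  | comp _ _ ih1 ih2 =>
    obtain ⟨g1, hg1, h1⟩ := ih1
    obtain ⟨g2, hg2, h2⟩ := ih2
    refine ⟨fun x s => g1 (g2 x s) s, by fun_prop, fun x y hy => ?_⟩
    simp only [Part.bind_eq_bind, Part.mem_bind_iff] at hy
    obtain ⟨a, ha, hb⟩ := hy
    filter_upwards [h2 x a ha, h1 a y hb] with s e1 e2
    rw [e1, e2]
  | @prec f h _ _ ih1 ih2 =>
    obtain ⟨g1, hg1, h1⟩ := ih1
    obtain ⟨g2, hg2, h2⟩ := ih2
    refine ⟨fun x s => Nat.rec (g1 x.unpair.1 s)
      (fun y IH => g2 (Nat.pair x.unpair.1 (Nat.pair y IH)) s) x.unpair.2, by fun_prop,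
      fun x y hy => ?_⟩
    simp only at hy ⊢
    generalize x.unpair.2 = n at hy ⊢
    induction n generalizing y with
    | zero => exact h1 _ _ hy
    | succ n ih =>
      simp only [Part.bind_eq_bind, Part.mem_bind_iff] at hy
      obtain ⟨a, ha, hb⟩ := hy
      filter_upwards [ih a ha, h2 _ y hb] with s e1 e2
      simp only [e1, e2]
  | @rfind f _ ih =>
    obtain ⟨g1, hg1, h1⟩ := ih
    refine ⟨fun x s => ((List.range s).map fun n => g1 (Nat.pair x n) s).idxOf 0, ?_,
      fun x y hy => ?_⟩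
    · exact Primrec.list_idxOf.comp (Primrec.const 0) (by fun_prop)
    · rw [Nat.mem_rfind] at hy
      obtain ⟨hy1, hy2⟩ := hy
      simp only [Part.map_eq_map, Part.mem_map_iff, decide_eq_true_eq, exists_eq_right] at hy1
      have h3 : ∀ m ∈ Finset.range y, ∀ᶠ s in atTop, g1 (Nat.pair x m) s ≠ 0 := by
        intro m hm
        have := hy2 (Finset.mem_range.1 hm)
        simp only [Part.map_eq_map, Part.mem_map_iff, decide_eq_false_iff_not] at this
        obtain ⟨a, ha, ha0⟩ := this
        filter_upwards [h1 _ a ha] with s e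
        rwa [e]
      filter_upwards [(Finset.range y).eventually_all.2 h3, h1 _ 0 hy1, eventually_gt_atTop y]
        with s e1 e2 e3
      rw [List.idxOf, List.findIdx_eq (by simpa using e3)]
      simp only [List.getElem_map, List.getElem_range, e2, BEq.rfl, beq_eq_false_iff_ne, true_and]
      intro j hj
      exact e1 j (Finset.mem_range.2 hj)

theorem turing_to_lim {S : Set ℕ} (h : TuringReducible (chi S) (chi K)) : Lim fun x => x ∈ S := by
  classical
  rw [TuringReducible, RecursiveIn.iff_nat] at h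
  obtain ⟨g, hg, hl⟩ := approx_of_recursiveIn h
  refine ⟨fun x s => g x s == 1, (by fun_prop : Primrec _).to_comp, fun a => ?_⟩
  filter_upwards [hl a _ (Part.mem_some _)] with s hs
  by_cases ha : a ∈ S <;> simp [hs, ha]

end Pool.Agent.MP_c1eef4_lc.H62
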