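import Pool.Agent.MP_c1eef4_lc.H62.Theory
import Pool.Agent.MP_c1eef4_lc.H62.Auto

/-! Assembly. -/

namespace Pool.Agent.MP_c1eef4_lc.H62

open FirstOrder FirstOrder.Language

/-- The structure on the subtype `Set.univ`. -/
@[reducible] def SU : L.Structure (Set.univ : Set ℕ) :=
  ⟨fun f => Empty.elim f, fun k v => ErSplit colF k (List.ofFn fun i => (v i : ℕ))⟩

theorem main : ∃ (T : L.Theory) (A : Set ℕ) (_ : L.Structure A),
    T.IsMaximal ∧ Cardinal.Categorical.{0, 0, 0} Cardinal.aleph0 T ∧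
    (∀ n, Finite (T.CompleteType (Fin n))) ∧
    A.Infinite ∧ IsComputableStr A ∧ A ⊨ T ∧
    TuringReducible (chi (code (n := 0) '' T)) (chi K) ∧
    ¬ TuringReducible
      (chi {m | ∃ n, 1 ≤ n ∧ m = Nat.pair n (Nat.card (T.CompleteType (Fin n)))}) (chi K) ∧
    ∀ (B C : Set ℕ) [L.Structure B] [L.Structure C], IsComputableStr B → IsComputableStr C →
      Nonempty (B ≃[L] A) → Nonempty (C ≃[L] A) →
      ∃ (e : B ≃[L] C) (f : ℕ → ℕ), Computable f ∧ ∀ x : B, f x = e x := by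
  let _ := SU
  let e : (Set.univ : Set ℕ) ≃[L] ℕ :=
    ⟨Equiv.Set.univ ℕ, fun f => Empty.elim f, fun _ _ => Iff.rfl⟩
  refine ⟨L.completeTheory ℕ, Set.univ, SU, completeTheory.isMaximal L ℕ,
    categorical_of_finTypes finTypes, finite_types finTypes, Set.infinite_univ, ⟨?_, ?_⟩, ?_,
    lim_to_turing theory_lim, fun h => type_not_lim (turing_to_lim h), ?_⟩
  · exact ⟨fun _ => isTrue trivial, Computable.const true⟩
  · rw [ComputablePred.computable_iff]
    refine ⟨fun p => ErB (p.2.take p.1) (p.2.drop p.1), C.ofPrim (by fun_prop), ?_⟩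
    funext p
    rw [ErB_iff, eq_iff_iff]
    constructor
    · rintro ⟨n, v, h1, h2⟩
      rw [← h1]; exact h2
    · intro h
      refine ⟨p.2.length, fun i => ⟨p.2[i.1], trivial⟩, List.ofFn_getElem, ?_⟩
      change ErSplit colF p.1 (List.ofFn fun i : Fin p.2.length => p.2[i.1])
      rw [List.ofFn_getElem]; exact h
  · exact ⟨fun φ hφ => (StrongHomClass.realize_sentence e φ).2 hφ⟩
  · rintro B C _ _ hB hC ⟨eB⟩ ⟨eC⟩
    exact autostable B C hB hC (e.comp eB) (e.comp eC)

end Pool.Agent.MP_c1eef4_lc.H62
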