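import Pool.Agent.MP_c1eef4_lc.H62.Defs

/-! One direction of the Ryll-Nardzewski theorem for the language `L`. -/

namespace Pool.Agent.MP_c1eef4_lc.H62

open FirstOrder FirstOrder.Language

section bnf
variable {A B : Type}

theorem bnf_chain [Countable A] [Countable B] [Nonempty A] [Nonempty B]
    (Good : Set (A × B) → Prop) (h0 : Good ∅)
    (hf : ∀ P, Good P → ∀ a, ∃ b, Good (insert (a, b) P))
    (hb : ∀ P, Good P → ∀ b, ∃ a, Good (insert (a, b) P)) :
    ∃ G : ℕ → Set (A × B), Monotone G ∧ (∀ n, Good (G n)) ∧ (∀ a, ∃ n b, (a, b) ∈ G n) ∧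
      (∀ b, ∃ n a, (a, b) ∈ G n) := by
  obtain ⟨eA, hA⟩ := exists_surjective_nat A
  obtain ⟨eB, hB⟩ := exists_surjective_nat B
  have step : ∀ (n : ℕ) (P : {P // Good P}), ∃ Q : {P // Good P}, P.1 ⊆ Q.1 ∧
      (∃ b, (eA n, b) ∈ Q.1) ∧ ∃ a, (a, eB n) ∈ Q.1 := by
    rintro n ⟨P, hP⟩
    obtain ⟨b, h1⟩ := hf P hP (eA n)
    obtain ⟨a, h2⟩ := hb _ h1 (eB n)
    exact ⟨⟨_, h2⟩, fun p hp => Or.inr (Or.inr hp), ⟨b, Or.inr (Or.inl rfl)⟩, a, Or.inl rfl⟩
  choose F hF using step
  let G : ℕ → {P // Good P} := fun n => Nat.rec ⟨∅, h0⟩ F n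
  refine ⟨fun n => (G n).1, monotone_nat_of_le_succ fun n => (hF n (G n)).1, fun n => (G n).2,
    fun a => ?_, fun b => ?_⟩
  · obtain ⟨n, rfl⟩ := hA a
    exact ⟨n + 1, (hF n (G n)).2.1⟩
  · obtain ⟨n, rfl⟩ := hB b
    exact ⟨n + 1, (hF n (G n)).2.2⟩

theorem iso_of_chain [L.Structure A] [L.Structure B] (G : ℕ → Set (A × B)) (hG : Monotone G)
    (hA : ∀ a, ∃ n b, (a, b) ∈ G n) (hB : ∀ b, ∃ n a, (a, b) ∈ G n)
    (heq : ∀ n, ∀ p ∈ G n, ∀ q ∈ G n, p.1 = q.1 ↔ p.2 = q.2)
    (hrel : ∀ n k (r : L.Relations k) (σ : Fin k → A × B), (∀ i, σ i ∈ G n) →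
      (Structure.RelMap r (fun i => (σ i).1) ↔ Structure.RelMap r (fun i => (σ i).2))) :
    ∃ e : A ≃[L] B, ∀ n a b, (a, b) ∈ G n → e a = b := by
  choose nA f hf using hA
  choose nB g hg using hB
  have heq' : ∀ n m p q, p ∈ G n → q ∈ G m → (p.1 = q.1 ↔ p.2 = q.2) := fun n m p q hp hq =>
    heq (max n m) p (hG (le_max_left _ _) hp) q (hG (le_max_right _ _) hq)
  let e : A ≃ B :=
    { toFun := f
      invFun := g
      left_inv := fun a => (heq' _ _ _ _ (hg (f a)) (hf a)).2 rfl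
      right_inv := fun b => (heq' _ _ _ _ (hf (g b)) (hg b)).1 rfl }
  refine ⟨⟨e, fun F => Empty.elim F, fun {k} r x => ?_⟩, fun n a b hab => ?_⟩
  · obtain ⟨N, hN⟩ := (Set.finite_range fun i => nA (x i)).bddAbove
    exact (hrel N k r (fun i => (x i, f (x i))) fun i => hG (hN ⟨i, rfl⟩) (hf (x i))).symm
  · exact (heq' _ _ _ _ (hf a) hab).1 rfl

end bnf

variable {M N N' : Type} [L.Structure M] [L.Structure N] [L.Structure N']

/-- The two tuples satisfy the same formulas. -/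
def Rel {α : Type} (x : α → M) (y : α → N) : Prop :=
  ∀ φ : L.Formula α, φ.Realize x ↔ φ.Realize y

theorem Rel.refl {α : Type} (x : α → M) : Rel x x := fun _ => Iff.rfl
theorem Rel.symm {α : Type} {x : α → M} {y : α → N} (h : Rel x y) : Rel y x :=
  fun φ => (h φ).symm
theorem Rel.trans {α : Type} {x : α → M} {y : α → N} {z : α → N'} (h : Rel x y) (h' : Rel y z) :
    Rel x z := fun φ => (h φ).trans (h' φ)
theorem Rel.comp {α β : Type} {x : α → M} {y : α → N} (h : Rel x y) (τ : β → α) :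
    Rel (x ∘ τ) (y ∘ τ) := fun φ => by
  rw [← Formula.realize_relabel, ← Formula.realize_relabel]; exact h _

/-- Finitely many types of each length are realized. -/
def FinTypes (M : Type) [L.Structure M] : Prop :=
  ∀ n, ∃ s : Finset (Fin n → M), ∀ x : Fin n → M, ∃ z ∈ s, Rel x z

theorem transfer [N ⊨ L.completeTheory M] {n : ℕ} (φ : L.Formula (Fin n))
    (h : ∀ x : Fin n → M, φ.Realize x) (y : Fin n → N) : φ.Realize y := by
  have h1 := realize_iff_of_model_completeTheory M N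
    ((φ.relabel (Sum.inr : Fin n → Empty ⊕ Fin n)).iAlls (Fin n))
  simp only [Sentence.Realize, Formula.realize_iAlls, Formula.realize_relabel] at h1
  exact h1.2 (fun x => h _) y

theorem isolate (H : FinTypes M) {n : ℕ} (x : Fin n → M) :
    ∃ θ : L.Formula (Fin n), θ.Realize x ∧ ∀ y : Fin n → M, θ.Realize y → Rel x y := by
  classical
  obtain ⟨s, hs⟩ := H n
  have key : ∀ s : Finset (Fin n → M), ∃ θ : L.Formula (Fin n), θ.Realize x ∧
      ∀ z ∈ s, θ.Realize z → Rel x z := by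
    intro s
    induction s using Finset.induction_on with
    | empty => exact ⟨⊤, by simp, by simp⟩
    | insert a s _ ih =>
      obtain ⟨θ, h1, h2⟩ := ih
      by_cases ha : Rel x a
      · refine ⟨θ, h1, fun z hz => ?_⟩
        rcases Finset.mem_insert.1 hz with rfl | hz
        · exact fun _ => ha
        · exact h2 z hz
      · obtain ⟨φ, hφ⟩ := not_forall.1 ha
        obtain ⟨ψ, hψ1, hψ2⟩ : ∃ ψ : L.Formula (Fin n), ψ.Realize x ∧ ¬ ψ.Realize a := by
          by_cases hx : φ.Realize x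
          · exact ⟨φ, hx, fun h => hφ (iff_of_true hx h)⟩
          · refine ⟨φ.not, by simpa using hx, fun h => hφ (iff_of_false hx (by simpa using h))⟩
        refine ⟨θ ⊓ ψ, by simp [h1, hψ1], fun z hz hr => ?_⟩
        rw [Formula.realize_inf] at hr
        rcases Finset.mem_insert.1 hz with rfl | hz
        · exact absurd hr.2 hψ2
        · exact h2 z hz hr.1
  obtain ⟨θ, h1, h2⟩ := key s
  refine ⟨θ, h1, fun y hy => ?_⟩
  obtain ⟨z, hz, hyz⟩ := hs y
  exact (h2 z hz ((hyz θ).1 hy)).trans hyz.symm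

theorem isolate' (H : FinTypes M) {n : ℕ} (x : Fin n → M) :
    ∃ θ : L.Formula (Fin n), θ.Realize x ∧ ∀ (N : Type) [L.Structure N] [N ⊨ L.completeTheory M]
      (y : Fin n → N), θ.Realize y → Rel x y := by
  obtain ⟨θ, h1, h2⟩ := isolate H x
  refine ⟨θ, h1, fun N _ _ y hy φ => ?_⟩
  by_cases hx : φ.Realize x
  · have := transfer (M := M) (θ.imp φ)
      (fun z => Formula.realize_imp.2 fun hz => (h2 z hz φ).1 hx) y
    exact iff_of_true hx (Formula.realize_imp.1 this hy)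
  · have := transfer (M := M) (θ.imp φ.not)
      (fun z => Formula.realize_imp.2 fun hz => by
        rw [Formula.realize_not, ← h2 z hz φ]; exact hx) y
    exact iff_of_false hx (by simpa using Formula.realize_imp.1 this hy)

theorem exists_rel (H : FinTypes M) [N ⊨ L.completeTheory M] {n : ℕ} (y : Fin n → N) :
    ∃ x : Fin n → M, Rel x y := by
  obtain ⟨s, hs⟩ := H n
  choose θ h1 h2 using fun x : Fin n → M => isolate' H x
  have := transfer (M := M) (Formula.iSup fun z : s => θ z) (fun x => by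
    obtain ⟨z, hz, hxz⟩ := hs x
    rw [Formula.realize_iSup]
    exact ⟨⟨z, hz⟩, (hxz _).2 (h1 z)⟩) y
  rw [Formula.realize_iSup] at this
  obtain ⟨z, hz⟩ := this
  exact ⟨z, h2 z N y hz⟩

/-- Existential quantification of the last variable. -/
noncomputable def exLast {n : ℕ} (φ : L.Formula (Fin (n + 1))) : L.Formula (Fin n) :=
  (φ.relabel (fun i => Fin.lastCases (Sum.inr ()) Sum.inl i : Fin (n + 1) → Fin n ⊕ Unit)).iExs Unit

theorem realize_exLast {n : ℕ} (φ : L.Formula (Fin (n + 1))) (x : Fin n → M) :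
    (exLast φ).Realize x ↔ ∃ a, φ.Realize (Fin.snoc (α := fun _ => M) x a) := by
  simp only [exLast, Formula.realize_iExs, Formula.realize_relabel]
  have key : ∀ i : Unit → M, (Sum.elim x i ∘
      (fun i => Fin.lastCases (Sum.inr ()) Sum.inl i : Fin (n + 1) → Fin n ⊕ Unit))
      = Fin.snoc (α := fun _ => M) x (i ()) := by
    intro i
    funext k
    refine Fin.lastCases ?_ (fun k => ?_) k <;> simp
  simp only [key]
  exact ⟨fun ⟨i, hi⟩ => ⟨_, hi⟩, fun ⟨a, ha⟩ => ⟨fun _ => a, ha⟩⟩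

theorem rel_forth (H : FinTypes M) [N ⊨ L.completeTheory M] {n : ℕ} {x : Fin n → M}
    {y : Fin n → N} (h : Rel x y) (a : M) :
    ∃ b, Rel (Fin.snoc (α := fun _ => M) x a) (Fin.snoc (α := fun _ => N) y b) := by
  obtain ⟨θ, h1, h2⟩ := isolate' H (Fin.snoc (α := fun _ => M) x a)
  obtain ⟨b, hb⟩ := (realize_exLast θ y).1 ((h _).1 ((realize_exLast θ x).2 ⟨a, h1⟩))
  exact ⟨b, h2 N _ hb⟩

theorem rel_back (H : FinTypes M) [N ⊨ L.completeTheory M] {n : ℕ} {x : Fin n → M}
    {y : Fin n → N} (h : Rel x y) (b : N) :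
    ∃ a, Rel (Fin.snoc (α := fun _ => M) x a) (Fin.snoc (α := fun _ => N) y b) := by
  obtain ⟨w, hw⟩ := exists_rel H (Fin.snoc (α := fun _ => N) y b)
  have h1 : Rel (Fin.init w) x := by
    have := hw.comp Fin.castSucc
    rw [Fin.snoc_comp_castSucc] at this
    exact this.trans h.symm
  obtain ⟨a, ha⟩ := rel_forth H h1 (w (Fin.last n))
  rw [Fin.snoc_init_self] at ha
  exact ⟨a, ha.symm.trans hw⟩

theorem iso_of_finTypes (H : FinTypes M) [Countable M] [Nonempty M] [Countable N] [Nonempty N]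
    [N ⊨ L.completeTheory M] : Nonempty (M ≃[L] N) := by
  let Good : Set (M × N) → Prop := fun P => P.Finite ∧ ∀ n (σ : Fin n → M × N), (∀ i, σ i ∈ P) →
    Rel (fun i => (σ i).1) (fun i => (σ i).2)
  have ext : ∀ P : Set (M × N), Good P → ∃ n, ∃ x : Fin n → M, ∃ y : Fin n → N, Rel x y ∧
      ∀ a b, Rel (Fin.snoc (α := fun _ => M) x a) (Fin.snoc (α := fun _ => N) y b) →
        Good (insert (a, b) P) := by
    rintro P ⟨hP, hP2⟩
    obtain ⟨n, σ0, -, hσ0⟩ := hP.fin_param
    refine ⟨n, fun i => (σ0 i).1, fun i => (σ0 i).2, hP2 n σ0 fun i => hσ0 ▸ ⟨i, rfl⟩,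
      fun a b hab => ⟨hP.insert _, fun m σ hσ => ?_⟩⟩
    have : ∀ i, ∃ k : Fin (n + 1), (σ i).1 = Fin.snoc (α := fun _ => M) (fun i => (σ0 i).1) a k ∧
        (σ i).2 = Fin.snoc (α := fun _ => N) (fun i => (σ0 i).2) b k := by
      intro i
      rcases hσ i with h | h
      · exact ⟨Fin.last n, by simp [h]⟩
      · rw [← hσ0] at h
        obtain ⟨k, hk⟩ := h
        exact ⟨k.castSucc, by simp [hk]⟩
    choose τ h1 h2 using this
    have h3 := hab.comp τ
    rw [funext h1, funext h2]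
    exact h3
  obtain ⟨G, hG, hgood, hA, hB⟩ := bnf_chain Good
    ⟨Set.finite_empty, fun n σ hσ φ => by
      rcases n with _ | n
      · obtain ⟨x, hx⟩ := exists_rel H (fun i : Fin 0 => (σ i).2)
        rw [Subsingleton.elim (fun i : Fin 0 => (σ i).1) x]
        exact hx φ
      · exact absurd (hσ 0) (Set.notMem_empty _)⟩
    (fun P hP a => by
      obtain ⟨n, x, y, h1, h2⟩ := ext P hP
      obtain ⟨b, hb⟩ := rel_forth H h1 a
      exact ⟨b, h2 a b hb⟩)
    (fun P hP b => by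
      obtain ⟨n, x, y, h1, h2⟩ := ext P hP
      obtain ⟨a, ha⟩ := rel_back H h1 b
      exact ⟨a, h2 a b ha⟩)
  obtain ⟨e, -⟩ := iso_of_chain G hG hA hB
    (fun n p hp q hq => by
      have := (hgood n).2 2 ![p, q] (fun i => by fin_cases i <;> simpa)
        ((Term.var 0).equal (Term.var 1))
      simpa using this)
    (fun n k r σ hσ => by
      have := (hgood n).2 k σ hσ (r.formula fun i => Term.var i)
      simpa using this)
  exact ⟨e⟩

theorem categorical_of_finTypes (H : FinTypes M) [Countable M] [Nonempty M] :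
    Cardinal.Categorical.{0, 0, 0} Cardinal.aleph0 (L.completeTheory M) := by
  intro N1 N2 h1 h2
  have : Countable N1 := Cardinal.mk_le_aleph0_iff.1 h1.le
  have : Countable N2 := Cardinal.mk_le_aleph0_iff.1 h2.le
  obtain ⟨e1⟩ := iso_of_finTypes (N := N1) H
  obtain ⟨e2⟩ := iso_of_finTypes (N := N2) H
  exact ⟨e2.comp e1.symm⟩

theorem typeOf_eq_iff {T : L.Theory} [Nonempty M] [Nonempty N] [M ⊨ T] [N ⊨ T] {α : Type}
    {x : α → M} {y : α → N} : T.typeOf x = T.typeOf y ↔ Rel x y := by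
  constructor
  · intro h φ
    rw [← Theory.CompleteType.formula_mem_typeOf (T := T), h,
      Theory.CompleteType.formula_mem_typeOf]
  · intro h
    refine SetLike.ext fun φ => ?_
    rw [Theory.CompleteType.mem_typeOf, Theory.CompleteType.mem_typeOf]
    exact h _

theorem typeOf_surjective (H : FinTypes M) [Nonempty M] (n : ℕ) :
    Function.Surjective ((L.completeTheory M).typeOf : (Fin n → M) → _) := by
  intro p
  obtain ⟨N, y, rfl⟩ := Theory.exists_modelType_is_realized_in _ p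
  obtain ⟨x, hx⟩ := exists_rel H y
  exact ⟨x, typeOf_eq_iff.2 hx⟩

theorem finite_types (H : FinTypes M) [Nonempty M] (n : ℕ) :
    Finite ((L.completeTheory M).CompleteType (Fin n)) := by
  obtain ⟨s, hs⟩ := H n
  refine Finite.of_surjective (fun z : s => (L.completeTheory M).typeOf z.1) fun p => ?_
  obtain ⟨x, rfl⟩ := typeOf_surjective H n p
  obtain ⟨z, hz, hxz⟩ := hs x
  exact ⟨⟨z, hz⟩, typeOf_eq_iff.2 hxz.symm⟩

end Pool.Agent.MP_c1eef4_lc.H62
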