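import Pool.Agent.MP_c1eef4_lc.H62.Col
import Pool.Agent.MP_c1eef4_lc.H62.RN

/-! The structure on `ℕ` and its model theory. -/

namespace Pool.Agent.MP_c1eef4_lc.H62

open FirstOrder FirstOrder.Language

/-- The relation with symbol number `k` splits its argument list at position `k`. -/
def ErSplit (c : Finset ℕ → ℕ) (k : ℕ) (l : List ℕ) : Prop := Er c (l.take k) (l.drop k)

instance SM : L.Structure ℕ :=
  ⟨fun f => Empty.elim f, fun k v => ErSplit colF k (List.ofFn v)⟩

theorem relMap_iff {n : ℕ} (k : L.Relations n) (v : Fin n → ℕ) :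
    Structure.RelMap k v ↔ ErSplit colF k (List.ofFn v) := Iff.rfl

variable {U V : Set ℕ} {c c' : Finset ℕ → ℕ} {P : Finset (ℕ × ℕ)}

theorem Pat.erSplit (h : Pat U V c c' P) {n : ℕ} (σ : Fin n → ℕ × ℕ) (hσ : ∀ i, σ i ∈ P) (k : ℕ) :
    ErSplit c k (List.ofFn fun i => (σ i).1) ↔ ErSplit c' k (List.ofFn fun i => (σ i).2) := by
  have hm : ∀ p ∈ List.ofFn σ, p ∈ P := by
    intro p hp
    obtain ⟨i, rfl⟩ := List.mem_ofFn.1 hp
    exact hσ i
  have := h.er (x := (List.ofFn σ).take k) (y := (List.ofFn σ).drop k)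
    (fun p hp => hm p (List.mem_of_mem_take hp)) (fun p hp => hm p (List.mem_of_mem_drop hp))
  simp only [List.map_take, List.map_drop, List.map_ofFn] at this
  exact this

theorem realize_pat (hc : GenOn Set.univ c) (hc' : GenOn Set.univ c')
    (he : ∀ x y, Er c x y ↔ Er colF x y) (he' : ∀ x y, Er c' x y ↔ Er colF x y) {α : Type} :
    ∀ {n : ℕ} (φ : L.BoundedFormula α n) (P : Finset (ℕ × ℕ)), Pat Set.univ Set.univ c c' P →
      ∀ (v w : α → ℕ) (xs ys : Fin n → ℕ), (∀ a, (v a, w a) ∈ P) → (∀ i, (xs i, ys i) ∈ P) →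
        (φ.Realize v xs ↔ φ.Realize w ys) := by
  have hterm : ∀ {n : ℕ} (t : L.Term (α ⊕ Fin n)) (P : Finset (ℕ × ℕ)) (v w : α → ℕ)
      (xs ys : Fin n → ℕ), (∀ a, (v a, w a) ∈ P) → (∀ i, (xs i, ys i) ∈ P) →
      (t.realize (Sum.elim v xs), t.realize (Sum.elim w ys)) ∈ P := by
    intro n t P v w xs ys h1 h2
    rcases t with (a | i) | f
    · exact h1 a
    · exact h2 i
    · exact Empty.elim f
  intro n φ
  induction φ with
  | falsum => intros; exact Iff.rfl
  | equal t u =>
    intro P hP v w xs ys h1 h2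
    exact hP.eq _ (hterm t P v w xs ys h1 h2) _ (hterm u P v w xs ys h1 h2)
  | rel R ts =>
    intro P hP v w xs ys h1 h2
    have := hP.erSplit (fun i => ((ts i).realize (Sum.elim v xs), (ts i).realize (Sum.elim w ys)))
      (fun i => hterm _ P v w xs ys h1 h2) R
    unfold ErSplit at this
    rw [he, he'] at this
    exact this
  | imp φ ψ ih1 ih2 =>
    intro P hP v w xs ys h1 h2
    simp only [BoundedFormula.realize_imp, ih1 P hP v w xs ys h1 h2, ih2 P hP v w xs ys h1 h2]
  | all φ ih =>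
    intro P hP v w xs ys h1 h2
    simp only [BoundedFormula.realize_all]
    have key : ∀ a b, Pat Set.univ Set.univ c c' (insert (a, b) P) →
        (φ.Realize v (Fin.snoc xs a) ↔ φ.Realize w (Fin.snoc ys b)) := by
      intro a b hab
      refine ih _ hab v w _ _ (fun a => Finset.mem_insert_of_mem (h1 a)) fun i => ?_
      refine Fin.lastCases ?_ (fun i => ?_) i
      · simp
      · simp [h2 i]
    constructor
    · intro h b
      obtain ⟨a, ha⟩ := hP.back hc hc' (Set.mem_univ b)
      exact (key a b ha).1 (h a)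
    · intro h a
      obtain ⟨b, hb⟩ := hP.forth hc hc' (Set.mem_univ a)
      exact (key a b hb).2 (h b)

theorem rel_of_pat (hc : GenOn Set.univ c) (hc' : GenOn Set.univ c')
    (he : ∀ x y, Er c x y ↔ Er colF x y) (he' : ∀ x y, Er c' x y ↔ Er colF x y) {α : Type}
    (hP : Pat Set.univ Set.univ c c' P) {v w : α → ℕ} (h : ∀ a, (v a, w a) ∈ P) : Rel v w :=
  fun φ => realize_pat hc hc' he he' φ P hP v w _ _ h (fun i => i.elim0)

theorem OK.lt {k x : ℕ} (h : OK k x) : x < 3 := by
  rcases h with rfl | ⟨-, rfl | ⟨rfl, -⟩⟩ <;> norm_num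

theorem colF_lt (S : Finset ℕ) : colF S < 3 := (gen_colF.ok S (Set.subset_univ _)).lt

theorem finTypes : FinTypes ℕ := by
  classical
  intro n
  let inv : (Fin n → ℕ) → (Fin n → Fin n → Bool) × (Finset (Fin n) → Fin 3) := fun x =>
    (fun i j => decide (x i = x j), fun S => ⟨colF (S.image x), colF_lt _⟩)
  refine ⟨Finset.univ.image (Function.invFun inv), fun x =>
    ⟨Function.invFun inv (inv x), Finset.mem_image_of_mem _ (Finset.mem_univ _), ?_⟩⟩
  have h : inv (Function.invFun inv (inv x)) = inv x := Function.invFun_eq ⟨x, rfl⟩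
  generalize Function.invFun inv (inv x) = y at h
  have h1 : ∀ i j, (x i = x j ↔ y i = y j) := by
    intro i j
    have := congrFun (congrFun (congrArg Prod.fst h) i) j
    simpa [inv] using this.symm
  have h2 : ∀ S : Finset (Fin n), colF (S.image x) = colF (S.image y) := by
    intro S
    have := congrFun (congrArg Prod.snd h) S
    simpa [inv] using this.symm
  refine rel_of_pat gen_colF gen_colF (fun _ _ => Iff.rfl) (fun _ _ => Iff.rfl)
    (P := Finset.univ.image fun i => (x i, y i)) ⟨by simp, ?_, fun S hS => ?_⟩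
    (fun a => Finset.mem_image_of_mem _ (Finset.mem_univ _))
  · intro p hp q hq
    obtain ⟨i, -, rfl⟩ := Finset.mem_image.1 hp
    obtain ⟨j, -, rfl⟩ := Finset.mem_image.1 hq
    exact h1 i j
  · obtain ⟨S', -, rfl⟩ := Finset.subset_image_iff.1 hS
    rw [Finset.image_image, Finset.image_image]
    exact h2 S'

/-- The tuple listed by a list. -/
def tup (n : ℕ) (x : List ℕ) : Fin n → ℕ := fun i => x.getD i 0

theorem ofFn_tup {n : ℕ} {x : List ℕ} (h : x.length = n) : List.ofFn (tup n x) = x := by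
  subst h
  apply List.ext_getElem (by simp)
  intro i h1 h2
  simp [tup, List.getD_eq_getElem?_getD, h2]

theorem tup_ofFn {n : ℕ} (v : Fin n → ℕ) : tup n (List.ofFn v) = v := by
  funext i
  simp [tup, List.getD_eq_getElem?_getD]

theorem exists_match (hc : GenOn U c) (hc' : GenOn V c') (x : List ℕ) (hx : ∀ a ∈ x, a ∈ U) :
    ∃ l : List (ℕ × ℕ), l.map Prod.fst = x ∧ Pat U V c c' l.toFinset := by
  induction x with
  | nil => exact ⟨[], rfl, Pat.empty hc hc'⟩
  | cons a x ih =>
    obtain ⟨l, rfl, hl⟩ := ih fun b hb => hx b (List.mem_cons_of_mem _ hb)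
    obtain ⟨b, hb⟩ := hl.forth hc hc' (hx a List.mem_cons_self)
    exact ⟨(a, b) :: l, rfl, by rwa [List.toFinset_cons]⟩

theorem swap_of_W {j : ℕ} (hj : Wj j) : ∃ x y : List ℕ, x.length = ar j 0 ∧ y.length = ar j 0 ∧
    colL x = 1 ∧ colL y = 2 ∧ Rel (tup (ar j 0) x) (tup (ar j 0) y) := by
  have hg : GenOn Set.univ (swc (fun i => i = j) colF) :=
    gen_colF.swc fun i hi => hi ▸ hj
  obtain ⟨x, -, hx1, hx2, hx3⟩ := gen_colF.exists_col (ar_pos j 0) (Or.inr ⟨ar_pos j 0, Or.inl rfl⟩)
  obtain ⟨l, rfl, hl⟩ := exists_match gen_colF hg x fun _ _ => trivial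
  have hm : ∀ p ∈ l, p ∈ l.toFinset := fun p hp => List.mem_toFinset.2 hp
  have hy1 : (l.map Prod.snd).Nodup := (hl.nodup hm).1 hx1
  have hy2 : (l.map Prod.snd).length = ar j 0 := by simpa using hx2
  refine ⟨_, l.map Prod.snd, hx2, hy2, by rw [colL_of_nodup hx1, hx3], ?_, ?_⟩
  · have := hl.colList hm
    rw [hx3, swc, List.toFinset_card_of_nodup hy1, hy2, if_pos (by simp)] at this
    rw [colL_of_nodup hy1, ← flip_flip (colF _), ← this]; rfl
  · refine rel_of_pat gen_colF hg (fun _ _ => Iff.rfl) (fun _ _ => Er_swc _ _ _ _) hl fun i => ?_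
    have hi : (i : ℕ) < l.length := by have := i.2; simp at hx2; omega
    simp only [tup, List.getD_eq_getElem?_getD, List.getElem?_map, List.getElem?_eq_getElem hi,
      Option.map_some, Option.getD_some]
    exact hm _ (List.getElem_mem hi)

theorem nodup_of_colL {x : List ℕ} (h : colL x ≠ 0) : x.Nodup :=
  by_contra fun hx => h (colL_of_not_nodup hx)

theorem W_of_swap {j : ℕ} {x y : List ℕ} (hx : x.length = ar j 0) (hy : y.length = ar j 0)
    (cx : colL x = 1) (cy : colL y = 2) (h : Rel (tup (ar j 0) x) (tup (ar j 0) y)) : Wj j := by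
  intro t
  have hxn : x.Nodup := nodup_of_colL (by omega)
  have hyn : y.Nodup := nodup_of_colL (by omega)
  rw [colL_of_nodup hxn] at cx
  rw [colL_of_nodup hyn] at cy
  set n := ar j 0 with hn
  set m := ar j (t + 1) with hm
  let R : L.Relations (n + m) := n
  let φ : L.Formula (Fin n) :=
    (R.formula fun i => Term.var (finSumFinEquiv.symm i) : L.Formula (Fin n ⊕ Fin m)).iExs (Fin m)
  have hφ : ∀ u : List ℕ, u.length = n →
      (φ.Realize (tup n u) ↔ ∃ z : Fin m → ℕ, Er colF u (List.ofFn z)) := by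
    intro u hu
    simp only [φ, Formula.realize_iExs, Formula.realize_rel, Term.realize_var]
    refine exists_congr fun z => ?_
    have e : (fun i => Sum.elim (tup n u) z (finSumFinEquiv.symm i)) = Fin.append (tup n u) z := by
      funext i
      refine Fin.addCases (fun i => ?_) (fun i => ?_) i <;> simp
    rw [relMap_iff, e, List.ofFn_fin_append, ofFn_tup hu, ErSplit]
    have e2 : (R : ℕ) = u.length := hu.symm
    rw [e2, List.take_left, List.drop_left]
  obtain ⟨z, -, hz1, hz2, hz3⟩ := gen_colF.exists_col (ar_pos j (t + 1))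
    (Or.inr ⟨ar_pos _ _, Or.inl rfl⟩)
  have h1 : φ.Realize (tup n x) := (hφ x hx).2 ⟨tup m z, by
    rw [ofFn_tup hz2]
    exact ⟨hxn, hz1, by omega, by omega, by rw [hx, hz2, hn, colm_ar, colm_ar]⟩⟩
  obtain ⟨w, -, hw1, -, hw2, -⟩ := (hφ y hy).1 ((h φ).1 h1)
  have h2 := gen_colF.ok (List.ofFn w).toFinset (Set.subset_univ _)
  rw [← hw2, cy, List.toFinset_card_of_nodup hw1, List.length_ofFn] at h2
  rcases h2 with h2 | ⟨-, h2 | ⟨-, h2 | h2⟩⟩
  · omega
  · omega
  · simp [hm] at h2
  · simpa [hm] using h2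

end Pool.Agent.MP_c1eef4_lc.H62
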