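import Pool.Agent.MP_c1eef4_lc.H62.Model

/-! A primitive recursive approximation to the satisfaction relation. -/

namespace Pool.Agent.MP_c1eef4_lc.H62

open FirstOrder FirstOrder.Language Filter Encodable

attribute [local irreducible] Primrec Computable

def subl {α : Type} (x : List α) : List (List α) :=
  x.foldr (fun a acc => acc ++ acc.map fun l => a :: l) ([] :: [])

@[fun_prop] theorem subl_prim {α β : Type} [Primcodable α] [Primcodable β] {l : α → List β}
    (hl : Primrec l) : Primrec fun a => subl (l a) := by unfold subl; fun_prop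

theorem mem_subl {α : Type} {x l : List α} : l ∈ subl x ↔ l.Sublist x := by
  induction x generalizing l with
  | nil => simp [subl]
  | cons a x ih =>
    have : subl (a :: x) = subl x ++ (subl x).map fun l => a :: l := rfl
    rw [this, List.mem_append, List.mem_map, List.sublist_cons_iff]
    simp only [ih]
    refine or_congr Iff.rfl ⟨?_, ?_⟩
    · rintro ⟨r, h, rfl⟩; exact ⟨r, rfl, h⟩
    · rintro ⟨r, rfl, h⟩; exact ⟨r, h, rfl⟩

theorem exists_subl {α : Type} [DecidableEq α] {x : List α} {S : Finset α} (h : S ⊆ x.toFinset) :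
    ∃ l ∈ subl x, l.Nodup ∧ l.toFinset = S := by
  refine ⟨x.dedup.filter fun a => a ∈ S, mem_subl.2 (List.filter_sublist.trans x.dedup_sublist),
    x.nodup_dedup.filter _, ?_⟩
  ext a
  simp only [List.mem_toFinset, List.mem_filter, List.mem_dedup, decide_eq_true_eq]
  exact ⟨fun h => h.2, fun ha => ⟨List.mem_toFinset.1 (h ha), ha⟩⟩

def pat (x : List ℕ) (a : ℕ) : List ℕ :=
  (x.map fun y => bif a == y then 1 else 0) ++ (subl x).map fun l => colL (a :: l)

def repr (x : List ℕ) (a : ℕ) : Bool := (List.range a).all fun a' => !(pat x a' == pat x a)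

section
variable {α : Type} [Primcodable α] {f : α → ℕ} {l : α → List ℕ}
@[fun_prop] theorem pat_prim (hl : Primrec l) (hf : Primrec f) :
    Primrec fun a => pat (l a) (f a) := by unfold pat; fun_prop
@[fun_prop] theorem repr_prim (hl : Primrec l) (hf : Primrec f) :
    Primrec fun a => repr (l a) (f a) := by unfold repr; fun_prop
end

theorem colL_le (l : List ℕ) : colL l ≤ 2 := by
  by_cases h : l.Nodup
  · rw [colL_of_nodup h]; exact Nat.lt_succ_iff.1 (colF_lt _)
  · rw [colL_of_not_nodup h]; omega

theorem finite_repr (x : List ℕ) : {a | repr x a = true}.Finite := by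
  refine Set.Finite.of_finite_image (f := pat x)
    ((finite_lists (x.length + (subl x).length) 2).subset ?_) ?_
  · rintro _ ⟨a, -, rfl⟩
    refine ⟨by simp [pat], fun y hy => ?_⟩
    simp only [pat, List.mem_append, List.mem_map] at hy
    rcases hy with ⟨z, -, rfl⟩ | ⟨z, -, rfl⟩
    · cases a == z <;> simp
    · exact colL_le _
  · intro a ha b hb e
    simp only [Set.mem_ofPred_eq, repr, List.all_eq_true, List.mem_range, Bool.not_eq_true',
      beq_eq_false_iff_ne] at ha hb
    rcases lt_trichotomy a b with h | h | h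
    · exact absurd e (hb a h)
    · exact h
    · exact absurd e.symm (ha b h)

theorem exists_repr (x : List ℕ) (a : ℕ) : ∃ b, repr x b = true ∧ pat x b = pat x a := by
  have h : ∃ b, pat x b = pat x a := ⟨a, rfl⟩
  refine ⟨Nat.find h, ?_, Nat.find_spec h⟩
  simp only [repr, List.all_eq_true, List.mem_range, Bool.not_eq_true', beq_eq_false_iff_ne]
  intro a' ha'
  rw [Nat.find_spec h]
  exact Nat.find_min h ha'

theorem pat_of_pat_eq {x : List ℕ} {a b : ℕ} (h : pat x a = pat x b) :
    Pat Set.univ Set.univ colF colF (insert (a, b) (x.toFinset.image fun y => (y, y))) := by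
  obtain ⟨h1, h2⟩ := List.append_inj h (by simp)
  rw [List.map_inj_left] at h1 h2
  have h3 : ∀ y ∈ x, (a = y ↔ b = y) := by
    intro y hy
    have := h1 y hy
    rw [← beq_iff_eq, ← beq_iff_eq (a := b)]
    cases h4 : a == y <;> cases h5 : b == y <;> simp [h4, h5] at this ⊢
  refine ⟨by simp, fun p hp q hq => ?_, fun S hS => ?_⟩
  · simp only [Finset.mem_insert, Finset.mem_image, List.mem_toFinset] at hp hq
    rcases hp with rfl | ⟨y, hy, rfl⟩ <;> rcases hq with rfl | ⟨z, hz, rfl⟩
    · simp
    · exact h3 z hz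
    · simpa [eq_comm] using h3 y hy
    · rfl
  · by_cases hab : a = b
    · congr 1
      refine Finset.image_congr fun p hp => ?_
      have := hS hp
      simp only [Finset.mem_insert, Finset.mem_image, List.mem_toFinset] at this
      rcases this with rfl | ⟨y, -, rfl⟩
      · exact hab
      · rfl
    have hax : a ∉ x := fun ha => hab ((h3 a ha).1 rfl).symm
    have hbx : b ∉ x := fun hb => hab ((h3 b hb).2 rfl)
    have key : ∀ S' ⊆ x.toFinset.image fun y => (y, y), ∃ T ⊆ x.toFinset,
        S'.image Prod.fst = T ∧ S'.image Prod.snd = T := by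
      intro S' hS'
      obtain ⟨T, hT, rfl⟩ := Finset.subset_image_iff.1 hS'
      exact ⟨T, hT, by simp [Finset.image_image, Function.comp_def],
        by simp [Finset.image_image, Function.comp_def]⟩
    by_cases hS' : (a, b) ∈ S
    · obtain ⟨T, hT, e1, e2⟩ := key _ (Finset.subset_insert_iff.1 hS)
      rw [← Finset.insert_erase hS', Finset.image_insert, Finset.image_insert, e1, e2]
      obtain ⟨l, hl, hn, rfl⟩ := exists_subl hT
      have hsub := (mem_subl.1 hl).subset
      have := h2 l hl
      rw [colL_of_nodup (List.nodup_cons.2 ⟨fun h => hax (hsub h), hn⟩),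
        colL_of_nodup (List.nodup_cons.2 ⟨fun h => hbx (hsub h), hn⟩)] at this
      simpa using this
    · obtain ⟨T, -, e1, e2⟩ := key _ ((Finset.subset_insert_iff_of_notMem hS').1 hS)
      rw [e1, e2]

theorem realize_of_pat_eq {n : ℕ} (φ : L.BoundedFormula Empty (n + 1)) (v : Fin n → ℕ) {a b : ℕ}
    (h : pat (List.ofFn v) a = pat (List.ofFn v) b) :
    φ.Realize default (Fin.snoc (α := fun _ => ℕ) v a) ↔
      φ.Realize default (Fin.snoc (α := fun _ => ℕ) v b) := by
  refine realize_pat gen_colF gen_colF (fun _ _ => Iff.rfl) (fun _ _ => Iff.rfl) φ _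
    (pat_of_pat_eq h) _ _ _ _ (fun e => e.elim) fun i => ?_
  refine Fin.lastCases ?_ (fun i => ?_) i
  · simp
  · simp

theorem lt_pair {a b : ℕ} (ha : 0 < a) : b < Nat.pair a b := by
  unfold Nat.pair
  split_ifs with h
  · nlinarith
  · nlinarith

theorem unpair_snd_lt {c : ℕ} (h : 0 < c.unpair.1) : c.unpair.2 < c := by
  conv_rhs => rw [← Nat.pair_unpair c]
  exact lt_pair h

/-- Stage `s` approximation to truth of the formula with number `c` at the list `x`. -/
def SatB (s c : ℕ) (x : List ℕ) : Bool :=
  if c.unpair.1 = 1 then x.getD c.unpair.2.unpair.1 0 == x.getD c.unpair.2.unpair.2 0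
  else if c.unpair.1 = 2 then
    ErB (((dl c.unpair.2.unpair.2).map fun i => x.getD i 0).take c.unpair.2.unpair.1)
      (((dl c.unpair.2.unpair.2).map fun i => x.getD i 0).drop c.unpair.2.unpair.1)
  else if _h : c.unpair.1 = 3 then
    !SatB s c.unpair.2.unpair.1 x || SatB s c.unpair.2.unpair.2 x
  else if _h : c.unpair.1 = 4 then
    ((List.range s).filter (repr x)).all fun a => SatB s c.unpair.2 (x ++ [a])
  else false
termination_by c
decreasing_by
  · exact lt_of_le_of_lt (Nat.unpair_left_le _) (unpair_snd_lt (by omega))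
  · exact lt_of_le_of_lt (Nat.unpair_right_le _) (unpair_snd_lt (by omega))
  · exact unpair_snd_lt (by omega)

theorem SatB_prim' : Primrec fun b : ℕ × ℕ × List ℕ => SatB b.1 b.2.1 b.2.2 := by
  refine Primrec.nat_omega_rec' _ (m := fun b => b.2.1)
    (l := fun b => if b.2.1.unpair.1 = 3 then
        [(b.1, b.2.1.unpair.2.unpair.1, b.2.2), (b.1, b.2.1.unpair.2.unpair.2, b.2.2)]
      else if b.2.1.unpair.1 = 4 then
        ((List.range b.1).filter (repr b.2.2)).map fun a => (b.1, b.2.1.unpair.2, b.2.2 ++ [a])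
      else [])
    (g := fun b Ls => some (if b.2.1.unpair.1 = 1 then
        b.2.2.getD b.2.1.unpair.2.unpair.1 0 == b.2.2.getD b.2.1.unpair.2.unpair.2 0
      else if b.2.1.unpair.1 = 2 then
        ErB (((dl b.2.1.unpair.2.unpair.2).map fun i => b.2.2.getD i 0).take
            b.2.1.unpair.2.unpair.1)
          (((dl b.2.1.unpair.2.unpair.2).map fun i => b.2.2.getD i 0).drop b.2.1.unpair.2.unpair.1)
      else if b.2.1.unpair.1 = 3 then !Ls.getD 0 false || Ls.getD 1 false
      else if b.2.1.unpair.1 = 4 then Ls.all fun t => t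
      else false)) (by fun_prop) (by fun_prop) (Primrec₂.mk (by fun_prop)) ?_ ?_
  · rintro ⟨s, c, x⟩ b' hb'
    simp only at hb' ⊢
    split_ifs at hb' with h3 h4
    · simp only [List.mem_cons, List.not_mem_nil, or_false] at hb'
      rcases hb' with rfl | rfl
      · exact lt_of_le_of_lt (Nat.unpair_left_le _) (unpair_snd_lt (by omega))
      · exact lt_of_le_of_lt (Nat.unpair_right_le _) (unpair_snd_lt (by omega))
    · obtain ⟨a, -, rfl⟩ := List.mem_map.1 hb'
      exact unpair_snd_lt (by omega)
    · simp at hb'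
  · rintro ⟨s, c, x⟩
    simp only [Option.some.injEq]
    rw [SatB]
    split_ifs <;> first | rfl | simp [List.all_map, Function.comp_def]

@[fun_prop] theorem SatB_prim {α : Type} [Primcodable α] {f g : α → ℕ} {l : α → List ℕ}
    (hf : Primrec f) (hg : Primrec g) (hl : Primrec l) :
    Primrec fun a => SatB (f a) (g a) (l a) :=
  SatB_prim'.comp (hf.pair (hg.pair hl))

theorem term_getD {n : ℕ} (t : L.Term (Empty ⊕ Fin n)) (v : Fin n → ℕ) :
    (List.ofFn v).getD (termCode t) 0 = t.realize (Sum.elim default v) := by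
  rcases t with (e | i) | f
  · exact e.elim
  · simp [termCode, List.getD_eq_getElem?_getD]
  · exact Empty.elim f

theorem SatB_lim : ∀ {n : ℕ} (φ : L.BoundedFormula Empty n) (v : Fin n → ℕ),
    ∀ᶠ s in atTop, (SatB s (code φ) (List.ofFn v) = true ↔ φ.Realize default v) := by
  intro n φ
  induction φ with
  | falsum =>
    intro v
    refine Eventually.of_forall fun s => ?_
    rw [SatB]
    simp [code, BoundedFormula.Realize]
  | equal t u =>
    intro v
    refine Eventually.of_forall fun s => ?_
    rw [SatB]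
    simp only [code, Nat.unpair_pair, if_true, term_getD, beq_iff_eq]
    rfl
  | rel R ts =>
    intro v
    refine Eventually.of_forall fun s => ?_
    rw [SatB]
    simp only [code, Nat.unpair_pair, if_true, dl_encode, List.map_ofFn, Function.comp_def,
      term_getD, ErB_iff, OfNat.ofNat_ne_one, if_false]
    rfl
  | imp φ ψ ih1 ih2 =>
    intro v
    filter_upwards [ih1 v, ih2 v] with s h1 h2
    rw [SatB]
    simp only [code, Nat.unpair_pair, BoundedFormula.realize_imp, ← h1, ← h2]
    cases SatB s (code φ) (List.ofFn v) <;> simp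
  | all φ ih =>
    intro v
    have hfin := finite_repr (List.ofFn v)
    obtain ⟨N, hN⟩ := hfin.bddAbove
    filter_upwards [(eventually_all_finite hfin).2
      (fun a _ => ih (Fin.snoc (α := fun _ => ℕ) v a)), eventually_gt_atTop N] with s h1 h2
    have e : ∀ a, List.ofFn (Fin.snoc (α := fun _ => ℕ) v a) = List.ofFn v ++ [a] := by
      intro a
      rw [List.ofFn_succ']
      simp
    rw [SatB]
    simp only [code, Nat.unpair_pair, BoundedFormula.realize_all]
    rw [if_neg (by omega), if_neg (by omega), dif_neg (by omega), dif_pos trivial]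
    simp only [List.all_eq_true, List.mem_filter, List.mem_range]
    constructor
    · intro h a
      obtain ⟨b, hb1, hb2⟩ := exists_repr (List.ofFn v) a
      rw [← realize_of_pat_eq φ v hb2, ← h1 b hb1, e]
      exact h b ⟨lt_of_le_of_lt (hN hb1) h2, hb1⟩
    · rintro h a ⟨-, ha⟩
      rw [← e, h1 a ha]
      exact h a

/-- Well-formedness of formula numbers. -/
def WF (n c : ℕ) : Bool :=
  if c.unpair.1 = 0 then c.unpair.2 == 0
  else if c.unpair.1 = 1 then decide (c.unpair.2.unpair.1 < n) && decide (c.unpair.2.unpair.2 < n)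
  else if c.unpair.1 = 2 then (dl c.unpair.2.unpair.2).all fun i => decide (i < n)
  else if _h : c.unpair.1 = 3 then WF n c.unpair.2.unpair.1 && WF n c.unpair.2.unpair.2
  else if _h : c.unpair.1 = 4 then WF (n + 1) c.unpair.2
  else false
termination_by c
decreasing_by
  · exact lt_of_le_of_lt (Nat.unpair_left_le _) (unpair_snd_lt (by omega))
  · exact lt_of_le_of_lt (Nat.unpair_right_le _) (unpair_snd_lt (by omega))
  · exact unpair_snd_lt (by omega)

theorem WF_prim' : Primrec fun b : ℕ × ℕ => WF b.1 b.2 := by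
  refine Primrec.nat_omega_rec' _ (m := fun b => b.2)
    (l := fun b => if b.2.unpair.1 = 3 then
        [(b.1, b.2.unpair.2.unpair.1), (b.1, b.2.unpair.2.unpair.2)]
      else if b.2.unpair.1 = 4 then [(b.1 + 1, b.2.unpair.2)]
      else [])
    (g := fun b Ls => some (if b.2.unpair.1 = 0 then b.2.unpair.2 == 0
      else if b.2.unpair.1 = 1 then
        decide (b.2.unpair.2.unpair.1 < b.1) && decide (b.2.unpair.2.unpair.2 < b.1)
      else if b.2.unpair.1 = 2 then (dl b.2.unpair.2.unpair.2).all fun i => decide (i < b.1)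
      else if b.2.unpair.1 = 3 then Ls.getD 0 false && Ls.getD 1 false
      else if b.2.unpair.1 = 4 then Ls.getD 0 false
      else false)) (by fun_prop) (by fun_prop) (Primrec₂.mk (by fun_prop)) ?_ ?_
  · rintro ⟨n, c⟩ b' hb'
    simp only at hb' ⊢
    split_ifs at hb' with h3 h4
    · simp only [List.mem_cons, List.not_mem_nil, or_false] at hb'
      rcases hb' with rfl | rfl
      · exact lt_of_le_of_lt (Nat.unpair_left_le _) (unpair_snd_lt (by omega))
      · exact lt_of_le_of_lt (Nat.unpair_right_le _) (unpair_snd_lt (by omega))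
    · simp only [List.mem_cons, List.not_mem_nil, or_false] at hb'
      subst hb'
      exact unpair_snd_lt (by omega)
    · simp at hb'
  · rintro ⟨n, c⟩
    simp only [Option.some.injEq]
    rw [WF]
    split_ifs <;> rfl

@[fun_prop] theorem WF_prim {α : Type} [Primcodable α] {f g : α → ℕ}
    (hf : Primrec f) (hg : Primrec g) : Primrec fun a => WF (f a) (g a) :=
  WF_prim'.comp (hf.pair hg)

theorem termCode_lt {n : ℕ} (t : L.Term (Empty ⊕ Fin n)) : termCode t < n := by
  rcases t with (e | i) | f
  · exact e.elim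
  · exact i.2
  · exact Empty.elim f

theorem WF_code : ∀ {n : ℕ} (φ : L.BoundedFormula Empty n), WF n (code φ) = true := by
  intro n φ
  induction φ with
  | falsum => rw [WF]; simp [code]
  | equal t u => rw [WF]; simp [code, termCode_lt]
  | rel R ts => rw [WF]; simp [code, termCode_lt]
  | imp φ ψ ih1 ih2 => rw [WF]; simp [code, ih1, ih2]
  | all φ ih => rw [WF]; simp [code, ih]

theorem exists_of_WF (c : ℕ) : ∀ n, WF n c = true → ∃ φ : L.BoundedFormula Empty n, code φ = c := by
  induction c using Nat.strong_induction_on with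
  | _ c ih =>
    intro n h
    rw [WF] at h
    have hc := Nat.pair_unpair c
    have hc2 := Nat.pair_unpair c.unpair.2
    split_ifs at h with h0 h1 h2 h3 h4
    · refine ⟨.falsum, ?_⟩
      rw [← hc, h0, beq_iff_eq.1 h]; rfl
    · simp only [Bool.and_eq_true, decide_eq_true_eq] at h
      refine ⟨.equal (.var (Sum.inr ⟨_, h.1⟩)) (.var (Sum.inr ⟨_, h.2⟩)), ?_⟩
      simp only [code, termCode]
      rw [hc2, ← h1, hc]
    · simp only [List.all_eq_true, decide_eq_true_eq] at h
      refine ⟨.rel (l := (dl c.unpair.2.unpair.2).length) (c.unpair.2.unpair.1 : ℕ)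
        (fun i => .var (Sum.inr ⟨(dl c.unpair.2.unpair.2)[i], h _ (List.getElem_mem _)⟩)), ?_⟩
      simp only [code, termCode, Fin.getElem_fin, List.ofFn_getElem, encode_dl]
      rw [hc2, ← h2, hc]
    · simp only [Bool.and_eq_true] at h
      obtain ⟨φ, hφ⟩ := ih _ (lt_of_le_of_lt (Nat.unpair_left_le _) (unpair_snd_lt (by omega))) n h.1
      obtain ⟨ψ, hψ⟩ := ih _ (lt_of_le_of_lt (Nat.unpair_right_le _) (unpair_snd_lt (by omega))) n
        h.2
      refine ⟨.imp φ ψ, ?_⟩
      simp only [code]
      rw [hφ, hψ, hc2, ← h3, hc]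
    · obtain ⟨φ, hφ⟩ := ih _ (unpair_snd_lt (by omega)) _ h
      refine ⟨.all φ, ?_⟩
      simp only [code]
      rw [hφ, ← h4, hc]

/-- Truth of a formula number at a tuple. -/
def Tr (n c : ℕ) (v : Fin n → ℕ) : Prop :=
  ∃ φ : L.BoundedFormula Empty n, code φ = c ∧ φ.Realize default v

theorem Tr_lim (n c : ℕ) (v : Fin n → ℕ) :
    ∀ᶠ s in atTop, ((WF n c && SatB s c (List.ofFn v)) = true ↔ Tr n c v) := by
  by_cases h : Tr n c v
  · obtain ⟨φ, rfl, hφ⟩ := h
    filter_upwards [SatB_lim φ v] with s hs
    exact iff_of_true (by rw [WF_code, hs.2 hφ]; rfl) ⟨φ, rfl, hφ⟩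
  · cases hW : WF n c
    · exact Eventually.of_forall fun s => iff_of_false (by simp) h
    · obtain ⟨φ, rfl⟩ := exists_of_WF c n hW
      filter_upwards [SatB_lim φ v] with s hs
      refine iff_of_false ?_ h
      simp only [Bool.true_and, hs]
      exact fun hφ => h ⟨φ, rfl, hφ⟩

theorem Tr_code {n : ℕ} (φ : L.BoundedFormula Empty n) (v : Fin n → ℕ) :
    Tr n (code φ) v ↔ φ.Realize default v := by
  obtain ⟨s, h1, h2⟩ := ((Tr_lim n (code φ) v).and (SatB_lim φ v)).exists
  rw [← h1, ← h2, WF_code, Bool.true_and]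

end Pool.Agent.MP_c1eef4_lc.H62
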