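import Pool.Agent.MP_c1eef4_lc.H62.Sat

/-! The theory is computable in the halting set, its type function is not. -/

namespace Pool.Agent.MP_c1eef4_lc.H62

open FirstOrder FirstOrder.Language Filter Encodable

attribute [local irreducible] Primrec Computable

theorem theory_lim : Lim fun c => c ∈ code (n := 0) '' L.completeTheory ℕ := by
  refine ⟨fun c s => WF 0 c && SatB s c [], C.ofPrim (by fun_prop), fun c => ?_⟩
  filter_upwards [Tr_lim 0 c default] with s hs
  rw [List.ofFn_zero] at hs
  rw [hs]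
  have key : ∀ φ : L.BoundedFormula Empty 0,
      φ ∈ L.completeTheory ℕ ↔ φ.Realize (M := ℕ) default default := by
    intro φ
    rw [mem_completeTheory, Sentence.Realize, Formula.Realize]
    exact iff_of_eq (congrArg₂ _ (Subsingleton.elim _ _) (Subsingleton.elim _ _))
  constructor
  · rintro ⟨φ, h1, h2⟩; exact ⟨φ, (key φ).2 h2, h1⟩
  · rintro ⟨φ, h1, h2⟩; exact ⟨φ, h2, (key φ).1 h1⟩

theorem rel_iff_bd {n : ℕ} {v w : Fin n → ℕ} : Rel v w ↔
    ∀ φ : L.BoundedFormula Empty n, φ.Realize default v ↔ φ.Realize default w := by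
  constructor
  · intro h φ
    have := h.comp (Sum.elim Empty.elim id : Empty ⊕ Fin n → Fin n) φ.toFormula
    rw [BoundedFormula.realize_toFormula, BoundedFormula.realize_toFormula] at this
    rw [Subsingleton.elim (default : Empty → ℕ)
      ((v ∘ (Sum.elim Empty.elim id : Empty ⊕ Fin n → Fin n)) ∘ Sum.inl)]
    rw [Subsingleton.elim ((w ∘ (Sum.elim Empty.elim id : Empty ⊕ Fin n → Fin n)) ∘ Sum.inl)
      ((v ∘ (Sum.elim Empty.elim id : Empty ⊕ Fin n → Fin n)) ∘ Sum.inl)] at this
    exact this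
  · intro h φ
    rw [← Formula.realize_relabel_sumInr (v := default), ← Formula.realize_relabel_sumInr
      (v := default)]
    exact h _

theorem Tr_congr {n c : ℕ} {v w : Fin n → ℕ} (h : Rel v w) : Tr n c v ↔ Tr n c w :=
  exists_congr fun φ => and_congr_right fun _ => rel_iff_bd.1 h φ

open Classical in
noncomputable def prof (N n : ℕ) (v : Fin n → ℕ) : ℕ :=
  encode ((List.range N).map fun c => decide (Tr n c v))

def profS (s N n : ℕ) (u : List ℕ) : ℕ :=
  encode ((List.range N).map fun c => WF n c && SatB s c u)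

@[fun_prop] theorem profS_prim {α : Type} [Primcodable α] {f g h : α → ℕ} {l : α → List ℕ}
    (hf : Primrec f) (hg : Primrec g) (hh : Primrec h) (hl : Primrec l) :
    Primrec fun a => profS (f a) (g a) (h a) (l a) := by unfold profS; fun_prop

theorem prof_congr {N n : ℕ} {v w : Fin n → ℕ} (h : Rel v w) : prof N n v = prof N n w := by
  unfold prof
  congr 1
  exact List.map_congr_left fun c _ => by rw [Tr_congr h]

theorem prof_eq {N n : ℕ} {v w : Fin n → ℕ} (h : prof N n v = prof N n w) {c : ℕ} (hc : c < N) :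
    Tr n c v ↔ Tr n c w := by
  have := List.map_inj_left.1 (encode_injective h) c (List.mem_range.2 hc)
  simpa using this

theorem profS_lim (N n : ℕ) (u : List ℕ) (hu : u.length = n) :
    ∀ᶠ s in atTop, profS s N n u = prof N n (tup n u) := by
  filter_upwards [(Finset.range N).eventually_all.2 fun c _ => Tr_lim n c (tup n u)] with s hs
  unfold profS prof
  congr 1
  refine List.map_congr_left fun c hc => ?_
  have := hs c (Finset.mem_range.2 (List.mem_range.1 hc))
  rw [ofFn_tup hu] at this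
  rw [Bool.eq_iff_iff, this]
  simp

theorem type_not_lim : ¬ Lim fun m => m ∈ {m : ℕ | ∃ n, 1 ≤ n ∧
    m = Nat.pair n (Nat.card ((L.completeTheory ℕ).CompleteType (Fin n)))} := by
  classical
  rintro ⟨gt, hgt, hlim⟩
  let q : ℕ → ℕ × List (List ℕ) × List ℕ × List ℕ → Prop := fun j b =>
    (b.2.2.1.length = ar j 0 ∧ b.2.2.2.length = ar j 0 ∧ colL b.2.2.1 = 1 ∧ colL b.2.2.2 = 2 ∧
      ∀ u ∈ b.2.1, u.length = ar j 0) ∧
    b.2.1.length = Nat.card ((L.completeTheory ℕ).CompleteType (Fin (ar j 0))) ∧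
    (b.2.1.map fun u => prof b.1 (ar j 0) (tup _ u)).Nodup ∧
    prof b.1 (ar j 0) (tup _ b.2.2.1) = prof b.1 (ar j 0) (tup _ b.2.2.2)
  refine not_sigma2 (q := q) ⟨fun x s =>
    (x.2.2.2.1.length == ar x.1 0 && x.2.2.2.2.length == ar x.1 0 && colL x.2.2.2.1 == 1 &&
      colL x.2.2.2.2 == 2 && x.2.2.1.all fun u => u.length == ar x.1 0) &&
    (gt (Nat.pair (ar x.1 0) x.2.2.1.length) s &&
    (nodupB (x.2.2.1.map fun u => profS s x.2.1 (ar x.1 0) u) &&
    profS s x.2.1 (ar x.1 0) x.2.2.2.1 == profS s x.2.1 (ar x.1 0) x.2.2.2.2)), ?_, ?_⟩ ?_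
  · refine C.and (C.ofPrim (by fun_prop)) (C.and ?_ (C.ofPrim (by fun_prop)))
    exact C.comp hgt (g := fun x : (ℕ × ℕ × List (List ℕ) × List ℕ × List ℕ) × ℕ =>
      (Nat.pair (ar x.1.1 0) x.1.2.2.1.length, x.2)) (C.ofPrim (by fun_prop))
  · rintro ⟨j, N, z, x, y⟩
    simp only [q, Bool.and_eq_true, beq_iff_eq, List.all_eq_true, nodupB_iff, and_assoc]
    by_cases h : x.length = ar j 0 ∧ y.length = ar j 0 ∧ ∀ u ∈ z, u.length = ar j 0
    · obtain ⟨h1, h2, h3⟩ := h
      filter_upwards [hlim (Nat.pair (ar j 0) z.length), profS_lim N _ x h1, profS_lim N _ y h2,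
        z.toFinset.eventually_all.2 fun u hu => profS_lim N _ u (h3 u (List.mem_toFinset.1 hu))]
        with s e1 e2 e3 e4
      rw [e1, e2, e3, List.map_congr_left fun u hu => e4 u (List.mem_toFinset.2 hu)]
      have : (∃ n, 1 ≤ n ∧ Nat.pair (ar j 0) z.length
          = Nat.pair n (Nat.card ((L.completeTheory ℕ).CompleteType (Fin n)))) ↔
          z.length = Nat.card ((L.completeTheory ℕ).CompleteType (Fin (ar j 0))) := by
        constructor
        · rintro ⟨n, -, hn⟩
          obtain ⟨rfl, h⟩ := Nat.pair_eq_pair.1 hn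
          exact h
        · intro h
          exact ⟨_, ar_pos j 0, by rw [h]⟩
      rw [this]
    · refine Eventually.of_forall fun s => iff_of_false (fun h' => h ?_) (fun h' => h ?_)
      · exact ⟨h'.1, h'.2.1, h'.2.2.2.2.1⟩
      · exact ⟨h'.1, h'.2.1, h'.2.2.2.2.1⟩
  · intro j
    have := finite_types finTypes (ar j 0)
    have := Fintype.ofFinite ((L.completeTheory ℕ).CompleteType (Fin (ar j 0)))
    choose sec hsec using typeOf_surjective finTypes (ar j 0)
    constructor
    · intro hj
      obtain ⟨x, y, h1, h2, h3, h4, h5⟩ := swap_of_W hj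
      have hsep : ∀ pp : (L.completeTheory ℕ).CompleteType (Fin (ar j 0)) ×
          (L.completeTheory ℕ).CompleteType (Fin (ar j 0)), ∃ c,
          ((Tr _ c (sec pp.1) ↔ Tr _ c (sec pp.2)) → pp.1 = pp.2) := by
        rintro ⟨p, p'⟩
        by_cases hp : p = p'
        · exact ⟨0, fun _ => hp⟩
        · have : ¬ Rel (sec p) (sec p') := fun h =>
            hp (by rw [← hsec p, ← hsec p']; exact typeOf_eq_iff.2 h)
          rw [rel_iff_bd] at this
          obtain ⟨φ, hφ⟩ := not_forall.1 this
          exact ⟨code φ, fun h => absurd (by rwa [Tr_code, Tr_code] at h) hφ⟩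
      choose cc hcc using hsep
      obtain ⟨N, hN⟩ := (Set.finite_range cc).bddAbove
      refine ⟨(N + 1, Finset.univ.toList.map fun p => List.ofFn (sec p), x, y),
        ⟨h1, h2, h3, h4, ?_⟩, ?_, ?_, prof_congr h5⟩
      · intro u hu
        obtain ⟨p, -, rfl⟩ := List.mem_map.1 hu
        simp
      · simp
      · simp only [List.map_map]
        refine (Finset.nodup_toList _).map fun p p' h => ?_
        simp only [Function.comp, tup_ofFn] at h
        exact hcc (p, p') (prof_eq h (Nat.lt_succ_of_le (hN ⟨_, rfl⟩)))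
    · rintro ⟨⟨N, z, x, y⟩, ⟨h1, h2, h3, h4, -⟩, h6, h7, h8⟩
      simp only at h1 h2 h3 h4 h6 h7 h8
      refine W_of_swap h1 h2 h3 h4 ((typeOf_eq_iff (T := L.completeTheory ℕ)).1 ?_)
      let ty : List ℕ → (L.completeTheory ℕ).CompleteType (Fin (ar j 0)) :=
        fun u => (L.completeTheory ℕ).typeOf (tup _ u)
      have hF : ∀ u, prof N (ar j 0) (tup _ u) = prof N (ar j 0) (sec (ty u)) :=
        fun u => prof_congr ((typeOf_eq_iff (T := L.completeTheory ℕ)).1 (hsec _).symm)
      simp only [hF] at h7 h8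
      have h9 : ((z.map ty).map fun p => prof N (ar j 0) (sec p)).Nodup := by
        rw [List.map_map]; exact h7
      have h10 : (z.map ty).toFinset = Finset.univ := by
        refine Finset.eq_univ_of_card _ ?_
        rw [List.toFinset_card_of_nodup (h9.of_map _), List.length_map, h6, Nat.card_eq_fintype_card]
      have h11 : ∀ p, p ∈ z.map ty := fun p => List.mem_toFinset.1 (h10 ▸ Finset.mem_univ p)
      exact List.inj_on_of_nodup_map h9 (h11 _) (h11 _) h8

end Pool.Agent.MP_c1eef4_lc.H62
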